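import Pool.Agent.Helper17.TH.DICHA
import Pool.Agent.Helper31.TH.ExpW

/-!
# Project TH (MP_fc6b1e_nt), part II: the dichotomy
-/

set_option autoImplicit false

namespace Pool.Agent.Helper17.TH

/-- The dichotomy: if `χ` is good (and `RamD`), then `χ ξ` is good for all but finitely many `ξ ∈ Hat η`. -/
theorem dich : Pool.Agent.Helper38.TH.DICH := dich_of_exp Pool.Agent.Helper31.TH.s_exp

end Pool.Agent.Helper17.TH
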