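import Pool.Agent.Helper17.TH.TOW

/-!
# Project TH (MP_fc6b1e_nt), part II: the tower of fields, existence
-/

set_option autoImplicit false

namespace Pool.Agent.Helper17.TH

open NumberField Module IsDedekindDomain TensorProduct
open Pool.Agent.Helper51.SigLeo Pool.Agent.Helper51.RP Pool.Agent.Helper42.RD
open Pool.Agent.Helper38.FD (Chr CutsOut LeopoldtFor)
open Pool.Agent.Helper38.FW (InDec)
open Pool.Agent.Helper38.TH (IsTower Hat Unr RamD)
open Pool.Agent.Helper32.RDV (PI mem_PI norm_int_le wt)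

variable {p : ℕ} [Fact p.Prime] {K : Type} [Field K] [NumberField K]

/-- Two embeddings of `Ω` with the same restriction to `K` are conjugate (up to isometry). -/
theorem conj_emb (τ τ' : AlgebraicClosure K →+* ℂ_[p])
    (h : τ.comp (algebraMap K (AlgebraicClosure K)) = τ'.comp (algebraMap K (AlgebraicClosure K))) :
    ∃ g : AlgebraicClosure K ≃ₐ[K] AlgebraicClosure K, ∀ x, ‖τ' x‖ = ‖τ (g x)‖ := by
  have iG : IsGalois K (AlgebraicClosure K) := inferInstance
  have iQ : Algebra.IsAlgebraic ℚ (AlgebraicClosure K) :=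
    Algebra.IsAlgebraic.trans ℚ K (AlgebraicClosure K)
  have hu : (PI τ').under (𝓞 K) = (PI τ).under (𝓞 K) := by
    ext x
    change algebraMap (𝓞 K) (𝓞 (AlgebraicClosure K)) x ∈ PI τ' ↔
      algebraMap (𝓞 K) (𝓞 (AlgebraicClosure K)) x ∈ PI τ
    rw [mem_PI, mem_PI]
    have h1 : τ ((algebraMap (𝓞 K) (𝓞 (AlgebraicClosure K)) x : 𝓞 (AlgebraicClosure K)) :
        AlgebraicClosure K) = τ' ((algebraMap (𝓞 K) (𝓞 (AlgebraicClosure K)) x :
        𝓞 (AlgebraicClosure K)) : AlgebraicClosure K) := DFunLike.congr_fun h (x : K)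
    rw [h1]
  obtain ⟨g, hg⟩ := Pool.Agent.Helper30.PW.trans_primes (E := K) (PI τ') (PI τ) hu
  refine ⟨g, fun x ↦ ?_⟩
  have h2 : PI τ' = PI (τ.comp (g : AlgebraicClosure K →+* AlgebraicClosure K)) := by
    ext b
    rw [hg]
    rfl
  exact Pool.Agent.Helper30.PW.norm_eq_of_PI (p := p) _ _ h2 x

/-- extension of embeddings -/
theorem ext_emb (E L : Type) [Field E] [Field L] [Algebra E L] [Algebra.IsAlgebraic E L]
    (τ : E →+* ℂ_[p]) : ∃ τ' : L →+* ℂ_[p], τ'.comp (algebraMap E L) = τ := by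
  let _ : Algebra E ℂ_[p] := τ.toAlgebra
  exact ⟨((IsAlgClosed.lift : L →ₐ[E] ℂ_[p]) : L →+* ℂ_[p]), AlgHom.comp_algebraMap _⟩

theorem exists_tw (hU : S_UNR) (hS : S_SPL) (χ : Chr K (AlgebraicClosure K) ℂ_[p])
    (η : ℕ → Chr K (AlgebraicClosure K) ℂ_[p]) (hη : IsTower η) (hunr : Unr η) (hram : RamD χ η)
    (E : IntermediateField K (AlgebraicClosure K)) [FiniteDimensional K E] (hE : CutsOut χ E) :
    ∃ (F : ℕ → IntermediateField K (AlgebraicClosure K)) (_ : ∀ m, NumberField (F m))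
      (_ : ∀ m, IsGalois K (F m)) (g₀ : AlgebraicClosure K ≃ₐ[K] AlgebraicClosure K),
      Tw χ η F g₀ := by
  classical
  choose H hH1 hH2 using hη.fin
  obtain ⟨g₀, hg₀P, hg₀⟩ := tow_exists hη.zero hη.pow χ.ker
  let F : ℕ → IntermediateField K (AlgebraicClosure K) := fun m ↦ E ⊔ H m
  have hFf : ∀ m, FiniteDimensional K (F m) := fun m ↦ by
    have := hH1 m
    exact IntermediateField.finiteDimensional_sup E (H m)
  have hcut : ∀ m g, (∀ x ∈ F m, g x = x) ↔ χ g = 1 ∧ η m g = 1 := by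
    intro m g
    rw [hE g, hH2 m g]
    rw [← IntermediateField.mem_fixingSubgroup_iff, ← IntermediateField.mem_fixingSubgroup_iff,
      ← IntermediateField.mem_fixingSubgroup_iff, IntermediateField.fixingSubgroup_sup,
      Subgroup.mem_inf]
  have hFn : ∀ m, NumberField (F m) := fun m ↦ by
    have := hFf m
    exact NumberField.of_module_finite K (F m)
  have hFg : ∀ m, IsGalois K (F m) := fun m ↦ by
    have h1 : IsGalois K E := Pool.Agent.Helper38.FD.isGalois_of_cutsOut hE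
    have h2 : IsGalois K (H m) := Pool.Agent.Helper38.FD.isGalois_of_cutsOut (hH2 m)
    have h3 : Normal K (F m) := IntermediateField.normal_sup K (AlgebraicClosure K) E (H m)
    exact ⟨⟩
  have hle : ∀ m, F 0 ≤ F m := by
    intro m
    have h1 : (F m).fixingSubgroup ≤ (F 0).fixingSubgroup := by
      intro g hg
      rw [IntermediateField.mem_fixingSubgroup_iff] at hg ⊢
      rw [hcut] at hg
      rw [hcut]
      refine ⟨hg.1, ?_⟩
      rw [hη.zero]
      rfl
    have h2 := IntermediateField.fixedField_antitone h1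
    rwa [InfiniteGalois.fixedField_fixingSubgroup, InfiniteGalois.fixedField_fixingSubgroup] at h2
  have hHle : ∀ m, H m ≤ F m := fun m ↦ le_sup_right
  have hHn : ∀ m, NumberField (H m) := fun m ↦ by
    have := hH1 m
    exact NumberField.of_module_finite K (H m)
  have hHg : ∀ m, IsGalois K (H m) := fun m ↦ Pool.Agent.Helper38.FD.isGalois_of_cutsOut (hH2 m)
  have htriv : ∀ m, ∀ g : AlgebraicClosure K ≃ₐ[K] AlgebraicClosure K, (∀ x ∈ F 0, g x = x) →
      (∀ x ∈ H m, g x = x) → ∀ x ∈ F m, g x = x := by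
    intro m g h1 h2
    rw [hcut] at h1
    rw [← hH2 m g] at h2
    exact (hcut m g).2 ⟨h1.1, h2⟩
  have hunr' : ∀ (m : ℕ) (W : HeightOneSpectrum (𝓞 (F m))), (p : 𝓞 (F m)) ∉ W.asIdeal →
      Uni (F 0) (F m) W := by
    intro m W hW
    have := hHn m
    have := hHg m
    refine hU K (F 0) (F m) (H m) (hle m) (hHle m) (htriv m) W (HeightOneSpectrum.under (𝓞 K) W) rfl
      (hunr m (H m) (hH2 m) _ ?_)
    intro hp
    apply hW
    have h1 : algebraMap (𝓞 K) (𝓞 (F m)) (p : 𝓞 K) ∈ W.asIdeal := hp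
    rwa [map_natCast] at h1
  refine ⟨F, hFn, hFg, g₀, ?_⟩
  refine ⟨hη.zero, hη.one_ne, hη.pow, hcut, hg₀P, fun m g hg ↦ hg₀ m g hg, hunr', fun m W ↦ ?_⟩
  by_cases hpW : (p : 𝓞 (F m)) ∈ W.asIdeal
  swap
  · exact Or.inl (hunr' m W hpW)
  have hne : Nonempty (AlgebraicClosure ℚ →+* ℂ_[p]) :=
    Pool.Agent.Helper30.PW.nonempty_hom ℚ ℂ_[p]
  have hpv : W.valuation (F m) (p : F m) < 1 := by
    have := (W.valuation_lt_one_iff_mem (K := F m) (p : 𝓞 (F m))).2 hpW
    simpa using this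
  obtain ⟨τW, hτW⟩ := Pool.Agent.Helper70.PW.l_prm p ℂ_[p] hne (F m) W hpv
  -- extension to `Ω`
  have hal : Algebra.IsAlgebraic (F m) (AlgebraicClosure K) :=
    Algebra.IsAlgebraic.tower_top (K := K) (F m)
  obtain ⟨τ, hτ⟩ := ext_emb (F m) (AlgebraicClosure K) τW
  have hτx : ∀ x : F m, τ (x : AlgebraicClosure K) = τW x := fun x ↦ DFunLike.congr_fun hτ x
  by_cases hcase : ∃ τ' : AlgebraicClosure K →+* ℂ_[p],
      τ.comp (algebraMap K (AlgebraicClosure K)) = τ'.comp (algebraMap K (AlgebraicClosure K)) ∧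
      ∃ g, InDec τ' g ∧ η m g ≠ 1
  · right
    obtain ⟨τ', hτ', g, hg, hηg⟩ := hcase
    obtain ⟨g', hg', hχ⟩ := hram τ' ⟨m, g, hg, hηg⟩
    obtain ⟨h, hh⟩ := conj_emb τ τ' hτ'
    refine ⟨h * g' * h⁻¹, ?_, ?_⟩
    · intro x y hx hy
      have e1 : ‖τW y‖ = ‖τW x‖ := by
        rw [← hτx, ← hτx, hy]
        change ‖τ (h (g' (h⁻¹ (x : AlgebraicClosure K))))‖ = _
        rw [← hh, hg' (h⁻¹ (x : AlgebraicClosure K)), hh]
        congr 2
        rw [← AlgEquiv.mul_apply, mul_inv_cancel]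
        rfl
      have e2 : W.valuation (F m) y = W.valuation (F m) x :=
        le_antisymm ((hτW y x).2 e1.le) ((hτW x y).2 e1.ge)
      rw [ordv, ordv, e2]
    · rwa [map_mul, map_mul, map_inv, mul_comm (χ h), mul_inv_cancel_right]
  · left
    push Not at hcase
    have := hHn m
    have := hHg m
    have hDec : Pool.Agent.Helper42.PW.DecT (η m)
        (τ.comp (algebraMap K (AlgebraicClosure K))) := by
      intro τ' hτ' g hg
      exact hcase τ' hτ'.symm g hg
    have hspl := Pool.Agent.Helper30.PW.splF_of_decT p K (η m) (H m) (hH2 m) _ hDec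
    let _ := (IntermediateField.inclusion (hHle m)).toRingHom.toAlgebra
    have hst : IsScalarTower K (H m) (F m) := IsScalarTower.of_algebraMap_eq (fun _ => rfl)
    have hmem : ∀ x : 𝓞 (H m), x ∈ (HeightOneSpectrum.under (𝓞 (H m)) W).asIdeal ↔
        algebraMap (𝓞 (H m)) (𝓞 (F m)) x ∈ W.asIdeal := fun x ↦ Iff.rfl
    refine hS K (F 0) (F m) (H m) (hle m) (hHle m) (htriv m) W
      (HeightOneSpectrum.under (𝓞 (H m)) W) (fun x y hxy ↦ ?_) (hspl _ fun x ↦ ?_)
    · rw [hmem]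
      have : algebraMap (𝓞 (H m)) (𝓞 (F m)) x = y := by
        apply RingOfIntegers.ext
        apply Subtype.ext
        rw [← hxy]
        rfl
      rw [this]
    · rw [hmem]
      rw [← W.valuation_lt_one_iff_mem (K := F m)]
      have h1 := hτW 1 (algebraMap (𝓞 (F m)) (F m) (algebraMap (𝓞 (H m)) (𝓞 (F m))
        (algebraMap (𝓞 K) (𝓞 (H m)) x)))
      rw [map_one, map_one, norm_one] at h1
      rw [← not_le, h1, not_le]
      rw [← hτx]
      rfl

end Pool.Agent.Helper17.TH
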