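import Pool.Agent.Helper17.TH.GoalsII
import Pool.Agent.Helper51.SigLeo.Core
import Pool.Agent.Helper94.RP.RAT

/-!
# Project TH (MP_fc6b1e_nt), part II: basic facts on the coefficient modules and on the action
-/

set_option autoImplicit false

namespace Pool.Agent.Helper17.TH

open NumberField Module IsDedekindDomain TensorProduct
open Pool.Agent.Helper51.SigLeo Pool.Agent.Helper51.RP Pool.Agent.Helper42.RD
open Pool.Agent.Helper38.FD (Chr CutsOut LeopoldtFor)

section coeff

variable {O k : Type} [CommRing O] [CommRing k] {A : Type} [AddCommGroup A]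

theorem tm_tmul (j : O →+* k) (o : O) (a : A) : tm j A (o ⊗ₜ[ℤ] a) = j o ⊗ₜ[ℤ] a := rfl

theorem tm_smul (j : O →+* k) (o : O) (z : O ⊗[ℤ] A) : tm j A (o • z) = j o • tm j A z := by
  induction z using TensorProduct.induction_on with
  | zero => rw [smul_zero, map_zero, smul_zero]
  | add x y hx hy => rw [smul_add, map_add, hx, hy, map_add, smul_add]
  | tmul c a =>
    rw [TensorProduct.smul_tmul', tm_tmul, tm_tmul, TensorProduct.smul_tmul', smul_eq_mul,
      smul_eq_mul, map_mul]

theorem exO_tmul (f : A →+ A) (o : O) (a : A) : exO O f (o ⊗ₜ[ℤ] a) = o ⊗ₜ[ℤ] f a := by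
  simp [exO]

theorem exO_comp (f g : A →+ A) (z : O ⊗[ℤ] A) : exO O (f.comp g) z = exO O f (exO O g z) := by
  induction z using TensorProduct.induction_on with
  | zero => rw [map_zero, map_zero, map_zero]
  | add x y hx hy => rw [map_add, hx, hy, map_add, map_add]
  | tmul c a => rw [exO_tmul, exO_tmul, exO_tmul]; rfl

theorem exO_id (z : O ⊗[ℤ] A) : exO O (AddMonoidHom.id A) z = z := by
  induction z using TensorProduct.induction_on with
  | zero => rw [map_zero]
  | add x y hx hy => rw [map_add, hx, hy]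
  | tmul c a => rw [exO_tmul]; rfl

end coeff

section coeff'

variable {O k : Type} [CommRing O] [Field k] {A : Type} [AddCommGroup A]

theorem tm_exO (j : O →+* k) (f : A →+ A) (z : O ⊗[ℤ] A) :
    tm j A (exO O f z) = extEnd f (tm j A z) := by
  induction z using TensorProduct.induction_on with
  | zero => rw [map_zero, map_zero, map_zero]
  | add x y hx hy => rw [map_add, map_add, hx, hy, map_add, map_add]
  | tmul c a => rw [exO_tmul, tm_tmul, tm_tmul, extEnd_tmul]

/-- linear combinations of homomorphisms -/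
theorem extHom_sum {n : ℕ} (g : Fin n → A →+ k) (h : A →+ k) (c : Fin n → k)
    (hc : ∀ u, h u = ∑ i, g i u * c i) (w : k ⊗[ℤ] A) :
    extHom h w = ∑ i, extHom (g i) w * c i := by
  induction w using TensorProduct.induction_on with
  | zero => simp
  | add x y hx hy =>
    rw [map_add, hx, hy, ← Finset.sum_add_distrib]
    exact Finset.sum_congr rfl fun i _ ↦ by rw [map_add, add_mul]
  | tmul a u =>
    rw [extHom_tmul, hc, Finset.mul_sum]
    exact Finset.sum_congr rfl fun i _ ↦ by rw [extHom_tmul, mul_assoc]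

end coeff'

section action

variable {K : Type} [Field K] (F : IntermediateField K (AlgebraicClosure K)) [Normal K F]

theorem ug_mul (g h : AlgebraicClosure K ≃ₐ[K] AlgebraicClosure K) :
    ug F (g * h) = (ug F g).comp (ug F h) := by
  unfold ug
  rw [map_mul, unitsHom_mul]

theorem ug_one : ug F 1 = AddMonoidHom.id _ := by
  unfold ug
  rw [map_one, unitsHom_one]

theorem ug_congr (g h : AlgebraicClosure K ≃ₐ[K] AlgebraicClosure K)
    (hgh : ∀ x ∈ F, g x = h x) : ug F g = ug F h := by
  unfold ug
  congr 1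
  ext x
  rw [AlgEquiv.restrictNormalHom_apply, AlgEquiv.restrictNormalHom_apply]
  exact hgh x x.2

theorem ug_fix (g : AlgebraicClosure K ≃ₐ[K] AlgebraicClosure K)
    (hg : ∀ x ∈ F, g x = x) : ug F g = AddMonoidHom.id _ := by
  rw [ug_congr F g 1 (fun x hx ↦ by rw [hg x hx]; rfl), ug_one]

variable {p : ℕ} [Fact p.Prime] (Lg : IwasawaLog p ℂ_[p]) {T : Set (K →+* ℂ_[p])}

theorem log_ug (g : AlgebraicClosure K ≃ₐ[K] AlgebraicClosure K) (τ : F →+* ℂ_[p])
    (v : ℂ_[p] ⊗[ℤ] Additive (𝓞 F)ˣ) :
    extHom (logUnits Lg τ) (extEnd (ug F g) v) =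
      extHom (logUnits Lg (τ.comp ((AlgEquiv.restrictNormalHom F g : F ≃ₐ[K] F) : F →+* F))) v := by
  induction v using TensorProduct.induction_on with
  | zero => rw [map_zero, map_zero, map_zero]
  | add x y hx hy => rw [map_add, map_add, hx, hy, map_add]
  | tmul c a =>
    rw [extEnd_tmul, extHom_tmul, extHom_tmul]
    rfl

theorem above_comp (g : F ≃ₐ[K] F) {τ : F →+* ℂ_[p]} (hτ : τ ∈ (above T : Set (F →+* ℂ_[p]))) :
    τ.comp (g : F →+* F) ∈ (above T : Set (F →+* ℂ_[p])) := by
  have h : (τ.comp (g : F →+* F)).comp (algebraMap K F) = τ.comp (algebraMap K F) := by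
    ext x
    simp
  change (τ.comp (g : F →+* F)).comp (algebraMap K F) ∈ T
  rw [h]
  exact hτ

theorem closed_above (hT : PlaceClosed T) : PlaceClosed (above T : Set (F →+* ℂ_[p])) := by
  intro σ τ hστ
  apply hT
  intro x
  exact hστ _

end action

end Pool.Agent.Helper17.TH
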