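import Pool.Agent.Helper17.TH.GoalsII

/-!
# Project TH (MP_fc6b1e_nt), part II: the ring of the values of `χ`
-/

set_option autoImplicit false

namespace Pool.Agent.Helper17.TH

open Module

variable {p : ℕ} [Fact p.Prime] {G : Type} [Group G]

theorem zc_injective : Function.Injective (zc p) := by
  unfold zc
  rw [RingHom.coe_comp]
  exact (algebraMap ℚ_[p] ℂ_[p]).injective.comp (fun a b h ↦ PadicInt.ext h)

theorem exists_ring (χ : G →* ℂ_[p]ˣ) (d : ℕ) (hd : 0 < d) (hχ : χ ^ d = 1) :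
    ∃ (O : Type) (_ : CommRing O) (_ : IsDomain O) (_ : Algebra ℤ_[p] O)
      (_ : Module.Finite ℤ_[p] O) (_ : Module.Free ℤ_[p] O) (j : O →+* ℂ_[p]),
      Function.Injective j ∧
      (∀ x : ℤ_[p], j (algebraMap ℤ_[p] O x) = algebraMap ℚ_[p] ℂ_[p] x) ∧
      ∃ c : G → O, ∀ g, j (c g) = ((χ g : ℂ_[p]ˣ) : ℂ_[p]) := by
  classical
  let _ : Algebra ℤ_[p] ℂ_[p] := (zc p).toAlgebra
  set s : Set ℂ_[p] := Set.range fun g ↦ ((χ g : ℂ_[p]ˣ) : ℂ_[p]) with hs
  have hpow : ∀ g, ((χ g : ℂ_[p]ˣ) : ℂ_[p]) ^ d = 1 := by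
    intro g
    have := congrArg (fun f : G →* ℂ_[p]ˣ ↦ ((f g : ℂ_[p]ˣ) : ℂ_[p])) hχ
    simpa using this
  have hfin : s.Finite := by
    have h1 : s ⊆ {x : ℂ_[p] | x ∈ (Polynomial.nthRoots d (1 : ℂ_[p])).toFinset} := by
      rintro x ⟨g, rfl⟩
      simp only [Multiset.mem_toFinset, Set.mem_ofPred_eq]
      rw [Polynomial.mem_nthRoots hd]
      exact hpow g
    exact (Finset.finite_toSet _).subset h1
  have hint : ∀ x ∈ s, IsIntegral ℤ_[p] x := by
    rintro x ⟨g, rfl⟩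
    exact ⟨Polynomial.X ^ d - 1, Polynomial.monic_X_pow_sub_C (1 : ℤ_[p]) hd.ne' |> (by simpa using ·), by
      simp [hpow g]⟩
  have hfg := fg_adjoin_of_finite hfin hint
  have hM : Module.Finite ℤ_[p] (Algebra.adjoin ℤ_[p] s) := Module.Finite.iff_fg.2 hfg
  have hT : Module.IsTorsionFree ℤ_[p] (Algebra.adjoin ℤ_[p] s) := by
    rw [isTorsionFree_iff_algebraMap_injective]
    intro a b hab
    exact zc_injective (congrArg Subtype.val hab)
  refine ⟨Algebra.adjoin ℤ_[p] s, inferInstance, inferInstance, inferInstance, hM, ?_,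
    (Algebra.adjoin ℤ_[p] s).val.toRingHom, Subtype.val_injective, fun x ↦ rfl,
    fun g ↦ ⟨_, Algebra.subset_adjoin ⟨g, rfl⟩⟩, fun g ↦ rfl⟩
  exact Module.free_of_finite_type_torsion_free'

end Pool.Agent.Helper17.TH
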