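import Pool.Agent.Helper17.TH.GoalsII

set_option autoImplicit false

namespace Pool.Agent.Helper17.TH

open Module Polynomial Matrix

theorem s_det : S_DET := by
  classical
  intro R N _ _ _ _ T g w q hgen hq
  obtain ⟨s, n, hn⟩ := Module.Finite.exists_fin (R := R) (M := N)
  have hspan : ∀ x : N, ∃ c : Fin s → R, x = ∑ j, c j • n j := by
    intro x
    have hx : x ∈ Submodule.span R (Set.range n) := by rw [hn]; trivial
    obtain ⟨c, hc⟩ := (Submodule.mem_span_range_iff_exists_fun R).1 hx
    exact ⟨c, hc.symm⟩
  choose y hy using hq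
  choose c hc using fun i ↦ hspan (y i)
  choose b z hz using fun k ↦ hgen (n k)
  choose c' hc' using fun k ↦ hspan (z k)
  let v : Fin g ⊕ Fin s → N := Sum.elim w n
  let A : Matrix (Fin g ⊕ Fin s) (Fin g ⊕ Fin s) R[X] :=
    fromBlocks (C q • 1) (of fun i j ↦ - (X * C (c i j))) (of fun k i ↦ - C (b k i))
      (1 - of fun k j ↦ X * C (c' k j))
  have hA : ∀ i, ∑ j, aeval T (A i j) (v j) = 0 := by
    rintro (i | k)
    · rw [Fintype.sum_sum_type]
      have h1 : ∑ j : Fin g, aeval T (A (Sum.inl i) (Sum.inl j)) (v (Sum.inl j)) = q • w i := by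
        rw [Finset.sum_eq_single i]
        · simp [A, v]
        · intro j _ hj
          simp [A, Matrix.one_apply_ne (Ne.symm hj)]
        · simp
      have h2 : ∑ j : Fin s, aeval T (A (Sum.inl i) (Sum.inr j)) (v (Sum.inr j)) =
          - T (y i) := by
        rw [hc i, map_sum, ← Finset.sum_neg_distrib]
        refine Finset.sum_congr rfl fun j _ ↦ ?_
        simp [A, v]
      rw [h1, h2, hy i, add_neg_cancel]
    · rw [Fintype.sum_sum_type]
      have h1 : ∑ j : Fin g, aeval T (A (Sum.inr k) (Sum.inl j)) (v (Sum.inl j)) =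
          - ∑ j, b k j • w j := by
        rw [← Finset.sum_neg_distrib]
        refine Finset.sum_congr rfl fun j _ ↦ ?_
        simp [A, v]
      have h2 : ∑ j : Fin s, aeval T (A (Sum.inr k) (Sum.inr j)) (v (Sum.inr j)) =
          n k - T (z k) := by
        have h3 : ∀ j : Fin s, aeval T (A (Sum.inr k) (Sum.inr j)) (v (Sum.inr j)) =
            (if k = j then n j else 0) - T (c' k j • n j) := by
          intro j
          simp only [A, v, fromBlocks_apply₂₂, Sum.elim_inr, Matrix.sub_apply, Matrix.one_apply,
            map_sub, LinearMap.sub_apply, of_apply]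
          congr 1
          · by_cases h : k = j <;> simp [h]
          · simp
        rw [Finset.sum_congr rfl fun j _ ↦ h3 j, Finset.sum_sub_distrib]
        rw [hc' k, map_sum]
        simp
      rw [h1, h2]
      have h4 := hz k
      rw [h4]
      abel
  refine ⟨A.det, ?_, ?_⟩
  · have : A.det.eval 0 = (A.map (evalRingHom (0 : R))).det := by
      rw [← coe_evalRingHom, RingHom.map_det]
      rfl
    rw [this]
    have h2 : A.map (evalRingHom (0 : R)) = fromBlocks (q • 1) 0 (of fun k i ↦ - b k i) 1 := by
      rw [fromBlocks_map]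
      congr 1
      · ext i j
        by_cases h : i = j <;> simp [Matrix.one_apply, h]
      · ext i j
        simp
      · ext i j
        simp
      · ext i j
        by_cases h : i = j <;> simp [Matrix.one_apply, h]
    rw [h2, det_fromBlocks_zero₁₂, det_one, mul_one, det_smul, det_one, mul_one, Fintype.card_fin]
  · have hkill : ∀ j, aeval T A.det (v j) = 0 := by
      intro j
      have h1 : ∀ l, ∑ i, aeval T (A.adjugate l i) (∑ j, aeval T (A i j) (v j)) = 0 := by
        intro l
        simp [hA]
      have h2 : ∑ i, aeval T (A.adjugate j i) (∑ l, aeval T (A i l) (v l)) =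
          ∑ l, aeval T ((A.adjugate * A) j l) (v l) := by
        simp only [map_sum, Matrix.mul_apply, LinearMap.sum_apply, map_mul, Module.End.mul_apply]
        rw [Finset.sum_comm]
      rw [h1 j, adjugate_mul] at h2
      rw [h2, Finset.sum_eq_single j]
      · simp
      · intro l _ hl
        simp [Matrix.one_apply_ne (Ne.symm hl)]
      · simp
    intro x
    obtain ⟨d, hd⟩ := hspan x
    rw [hd, map_sum]
    refine Finset.sum_eq_zero fun j _ ↦ ?_
    rw [map_smul, show n j = v (Sum.inr j) from rfl, hkill, smul_zero]

end Pool.Agent.Helper17.TH
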