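import Pool.Agent.Helper17.TH.DICH
import Pool.Agent.Helper17.TH.DET
import Pool.Agent.Helper12.TH.COK
import Pool.Agent.Helper57.TH.TEN1
import Pool.Agent.Helper59.TH.TEN2
import Pool.Agent.Helper57.TH.CLS
import Pool.Agent.Helper18.TH.SPN
import Pool.Agent.Helper65.TH.TOR
import Pool.Agent.Helper16.TH.INF
import Pool.Agent.Helper80.TH.UNR
import Pool.Agent.Helper80.TH.SPL
import Pool.Agent.Helper77.TH.CNT
import Pool.Agent.Helper31.TH.Wrap

/-!
# Project TH (MP_fc6b1e_nt), part II: the dichotomy, from `S_EXP`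
-/

set_option autoImplicit false

namespace Pool.Agent.Helper17.TH

/-- The dichotomy follows from `S_EXP`. -/
theorem dich_of_exp (hExp : S_EXP) : Pool.Agent.Helper38.TH.DICH :=
  dich_of s_det Pool.Agent.Helper12.TH.s_cok Pool.Agent.Helper57.TH.s_ten1
    Pool.Agent.Helper59.TH.s_ten2 Pool.Agent.Helper57.TH.s_cls Pool.Agent.Helper18.TH.s_spn
    Pool.Agent.Helper65.TH.s_tor Pool.Agent.Helper16.TH.s_inf Pool.Agent.Helper80.TH.s_unr
    Pool.Agent.Helper80.TH.s_spl Pool.Agent.Helper77.TH.s_cnt Pool.Agent.Helper31.TH.s_gen hExp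

end Pool.Agent.Helper17.TH
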