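import Pool.Agent.Helper17.TH.GoalsI
import Pool.Agent.Helper38.FW.Defs

/-!
# Project TH (MP_fc6b1e_nt, T100), part II: goals II.1, II.6-II.8

Every statement is a `def ... : Prop` with its complete proof in the docstring.
-/

set_option autoImplicit false

namespace Pool.Agent.Helper17.TH

open NumberField Module IsDedekindDomain TensorProduct Polynomial
open Pool.Agent.Helper51.SigLeo Pool.Agent.Helper51.RP Pool.Agent.Helper42.RD
open Pool.Agent.Helper38.FD (Chr CutsOut LeopoldtFor)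
open Pool.Agent.Helper38.FW (InDec)

/-- `ℤ_p → ℂ_p`. -/
noncomputable def zc (p : ℕ) [Fact p.Prime] : ℤ_[p] →+* ℂ_[p] :=
  (algebraMap ℚ_[p] ℂ_[p]).comp (algebraMap ℤ_[p] ℚ_[p])

/-! ## Algebra -/

/-- **S_CNT** (counting, II.7). `ξ` is a root of unity, `D ∈ ℤ_p[X]` with `D(0) = p^N`. Then `D` has a root of the form
`ξ (ζ - 1)`, `ζ` a primitive `p^n`-th root of unity, for at most `N` numbers `n ≥ 1`.

PROOF. For every `n ∈ s` choose `ζ_n` and put `t_n = ξ (ζ_n - 1)`; it is integral over `ℤ_p` (use `zc p` as `Algebra ℤ_[p] ℂ_[p]`, `letI := (zc p).toAlgebra`). Let `h_n = minpoly ℤ_[p] t_n`: monic, irreducible (prime, as `ℤ_p` is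
integrally closed; `minpoly.prime_of_isIntegrallyClosed` or similar), `h_n ∣ D` (`minpoly.isIntegrallyClosed_dvd`).
(1) `p ∣ h_n(0)`: every root of `h_n` in `ℂ_p` has norm `≤ 1` (integral), `t_n` is a root with `‖t_n‖ < 1`
(`∏_(a) (1 - ζ_n^a) = p`, the product over the `a < p^n` prime to `p` (`Polynomial.eval_one_cyclotomic_prime_pow`, `cyclotomic = ∏ (X - primitive roots)`), all factors have norm `≤ 1` and the same norm as `1 - ζ_n`
because `(1 - ζ^a)/(1 - ζ)` and its inverse are integral), so `‖h_n(0)‖ = ∏ ‖roots‖ < 1`.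
(2) The `h_n` are pairwise distinct, hence non associated primes: `‖t_n‖ = p^(-1/φ(p^n))` by (1); if `h_n = h_m` then `t_n` and `t_m` are conjugate over `ℚ_p` (same minimal polynomial), so they have the same norm (`spectralNorm`
depends only on the minimal polynomial and it is the norm of `ℂ_p` on the algebraic elements; or: there is an embedding `ℚ_p(ξ, ζ_n) → ℂ_p` with `t_n ↦ t_m`, it sends `ξ` to `ξ'` with `‖ξ'‖ = 1` and `ζ_n` to another primitive `p^n`-th root of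
unity, so `‖t_m‖ = ‖ξ'(ζ_n' - 1)‖ = ‖t_n‖`), so `φ(p^n) = φ(p^m)`, `n = m`.
(3) `∏_(n ∈ s) h_n ∣ D` (`Finset.prod_dvd_of_isRelPrime`/`Finset.prod_primes_dvd`), evaluate at `0`: `p^(card s) ∣ ∏ h_n(0) ∣ p^N` in `ℤ_p`, so `card s ≤ N`. -/
def S_CNT : Prop :=
  ∀ (p : ℕ) [Fact p.Prime] (ξ : ℂ_[p]) (d : ℕ), 0 < d → ξ ^ d = 1 →
  ∀ (N : ℕ) (D : ℤ_[p][X]), D.eval 0 = (p : ℤ_[p]) ^ N →
  ∀ s : Finset ℕ, (∀ n ∈ s, 1 ≤ n ∧ ∃ ζ : ℂ_[p], IsPrimitiveRoot ζ (p ^ n) ∧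
    D.eval₂ (zc p) (ξ * (ζ - 1)) = 0) → s.card ≤ N

/-- **S_DET** (determinant trick).

PROOF. Let `n : Fin s → N` generate `N`; consider `v = (w, n) : Fin g ⊕ Fin s → N`, `N` as `R[X]`-module through `T`
(`Module.AEval`). For `i : Fin g`: `q w_i = T y`, `y = ∑ c_(ij) n_j`, so `∑_j A_(ij) v_j = 0` with the row `A_i = (q e_i, -X c_i)`; for `k : Fin s`: `n_k = ∑ b_(ki) w_i + T y`, `y = ∑ c'_(kj) n_j`: row `(-b_k, e_k - X c'_k)`. Let `D = det A`; `D v_j = 0` for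
all `j` (`Matrix.adjugate_mul`), so `D(T) = 0`. `D(0) = det (A(0)) = det [[q I, 0], [-b, I]] = q^g` (`Matrix.det_fromBlocks_zero₁₂`). -/
def S_DET : Prop :=
  ∀ (R N : Type) [CommRing R] [AddCommGroup N] [Module R N] [Module.Finite R N] (T : N →ₗ[R] N)
    (g : ℕ) (w : Fin g → N) (q : R),
    (∀ x : N, ∃ (b : Fin g → R) (y : N), x = ∑ i, b i • w i + T y) → (∀ i, ∃ y, q • w i = T y) →
  ∃ D : R[X], D.eval 0 = q ^ g ∧ ∀ x, aeval T D x = 0

/-- **S_COK** (number of generators of the cokernel).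

PROOF. `V = N/pN` is a finite dimensional vector space over `ℤ_p/p = ZMod p`, `T` induces `t` on it. The kernel of `t` has at most `Q` elements (choose one representative in `N` of each; they satisfy the two conditions), so its dimension `d`
satisfies `p^d ≤ Q`, `d ≤ Q`. `dim coker t = dim ker t ≤ Q`. Choose `w_1, ..., w_Q` in `N` whose images span `V/t(V)`. Then `N = ∑ ℤ_p w_i + T(N) + pN`, and by Nakayama (`ℤ_p` is local with maximal ideal `(p)`, `N` is finitely generated)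
`N = ∑ ℤ_p w_i + T(N)`. (Also possible: with finite cardinalities, `|coker| = |ker|` for an endomorphism of the finite group `N/pN`.) -/
def S_COK : Prop :=
  ∀ (p : ℕ) [Fact p.Prime] (N : Type) [AddCommGroup N] [Module ℤ_[p] N] [Module.Finite ℤ_[p] N]
    (T : N →ₗ[ℤ_[p]] N) (Q : ℕ),
    (∀ s : Finset N, (∀ u ∈ s, ∃ w, T u = p • w) →
      (∀ u ∈ s, ∀ v ∈ s, (∃ w, u - v = p • w) → u = v) → s.card ≤ Q) →
  ∃ w : Fin Q → N, ∀ x : N, ∃ (b : Fin Q → ℤ_[p]) (y : N), x = ∑ i, b i • w i + T y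

/-- **S_TEN1** (kernel of `O ⊗ A → ℂ_p ⊗ A`): it is generated by the `o ⊗ x`, `x` of `p`-power order.

PROOF. `A/tors` is free; choose `e_1, ..., e_r ∈ A` which give a basis of it. The `1 ⊗ e_i` are linearly independent in `ℂ_p ⊗ A` (the coordinates `A → A/tors → ℤ` extend to `ℂ_p ⊗ A → ℂ_p`). Every `a ∈ A` is `∑ c_i e_i + t`, `t` torsion; so every
`z ∈ O ⊗ A` is `∑ o_i ⊗ e_i + ∑_l o'_l ⊗ t_l`. If `tm j z = 0` then `j(o_i) = 0`, `o_i = 0`. If `n t = 0`, `n = p^s n'`, `n'` prime to `p`, then `n'` is a unit of `ℤ_p`, so `o ⊗ t = (n'^(-1) o) ⊗ (n' t)`, and `p^s (n' t) = 0`. -/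
def S_TEN1 : Prop :=
  ∀ (p : ℕ) [Fact p.Prime] (O : Type) [CommRing O] [Algebra ℤ_[p] O] (j : O →+* ℂ_[p]),
    Function.Injective j →
  ∀ (A : Type) [AddCommGroup A] [Module.Finite ℤ A] (z : O ⊗[ℤ] A), tm j A z = 0 →
    z ∈ AddSubgroup.closure {y : O ⊗[ℤ] A | ∃ (o : O) (x : A) (n : ℕ), p ^ n • x = 0 ∧ y = o ⊗ₜ x}

/-- **S_TEN2** (`O ⊗ A` modulo `p`).

PROOF. (1) Induction on `z`; `o ⊗ a` with `o = ∑ r_i b_i`, `r_i = n_i + p s_i`, `n_i ∈ ℕ`: `o ⊗ a = ∑ b_i ⊗ n_i a + p (∑ s_i b_i) ⊗ a`. (2) Let `c_i : O → ℤ_p → ZMod p` be the `i`-th coordinate modulo `p`. The additive map `O ⊗ A → A/pA`,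
`o ⊗ a ↦ c_i(o) ā` (`A/pA` is a module over `ZMod p`) kills `p (O ⊗ A)` and sends `∑ b_l ⊗ e_l` to the class of `e_i`. -/
def S_TEN2 : Prop :=
  ∀ (p : ℕ) [Fact p.Prime] (O : Type) [CommRing O] [Algebra ℤ_[p] O] (ι : Type) [Fintype ι]
    (b : Basis ι ℤ_[p] O) (A : Type) [AddCommGroup A],
    (∀ z : O ⊗[ℤ] A, ∃ (e : ι → A) (y : O ⊗[ℤ] A), z = ∑ i, b i ⊗ₜ e i + p • y) ∧
    ∀ (e : ι → A) (y : O ⊗[ℤ] A), ∑ i, b i ⊗ₜ[ℤ] e i = p • y → ∀ i, ∃ a, e i = p • a

/-- **S_CLS** (counting classes modulo `p`).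

PROOF. `A/pA` is finite (`A` is finitely generated). `Fix = {ē : φ ē = 0}` has at most `C` elements; `Fix' = {ē : ∃ n, φ ē = n ζ̄}` is a subgroup, `φ` maps it into the cyclic group generated by `ζ̄`, of order `≤ p`, with kernel `Fix`; so
`card Fix' ≤ p C`. The map `e ↦ (class of e i)_i` from `s` to `ι → Fix'` is injective. -/
def S_CLS : Prop :=
  ∀ (p : ℕ) [Fact p.Prime] (A : Type) [AddCommGroup A] [Module.Finite ℤ A] (φ : A →+ A) (ζ : A)
    (C : ℕ), (∀ s : Finset A, (∀ u ∈ s, ∃ w, φ u = p • w) →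
      (∀ u ∈ s, ∀ v ∈ s, (∃ w, u - v = p • w) → u = v) → s.card ≤ C) →
  ∀ (ι : Type) [Fintype ι] (s : Finset (ι → A)),
    (∀ e ∈ s, ∀ i, ∃ (n : ℕ) (a : A), φ (e i) = n • ζ + p • a) →
    (∀ e ∈ s, ∀ e' ∈ s, (∀ i, ∃ a, e i - e' i = p • a) → e = e') →
    s.card ≤ (p * C) ^ Fintype.card ι

/-- **S_SPN** (descent of a linear system). `f l : A → ℚ_p` homomorphisms, `φ h` endomorphisms of `A`, `c h ∈ O`. A vector `v` of `ℂ_p ⊗ A` with `f_l(v) = 0` and `φ_h v = c_h v` is a linear combination of the images of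
elements of `O ⊗ A` with the same properties.

PROOF. Let `L ⊆ ℂ_p` be the fraction field of `j(O)` (the subfield generated by `j(O)`; it contains `ℚ_p`: `j(O) ⊇ ℤ_p` by `hjp`, so every element of `L` times some nonzero element of `j(O)` is in `j(O)`). Let `e_1, ..., e_r ∈ A` be a basis of
`A/tors`: the `1 ⊗ e_i` are a basis of `ℂ_p ⊗ A`, `v = ∑ v_i ⊗ e_i`. The conditions are linear equations `∑_i a_i v_i = 0` with `a_i ∈ L` (`f_l(e_i) ∈ ℚ_p`; the coordinates of `φ_h e_i` are integers, `j(c_h) ∈ L`). Let `β_1, ..., β_s` be an `L`-basis of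
the `L`-span of the `v_i`, `v_i = ∑_l β_l w_i^l` with `w_i^l ∈ L`; the equations hold for each `w^l = (w_i^l)_i` since the `β_l` are linearly independent over `L`. Choose `0 ≠ o ∈ O` with `j(o) w_i^l ∈ j(O)` for all `i`, `l`, `j(o) w_i^l = j(o_i^l)`;
`z^l = ∑_i o_i^l ⊗ e_i`, `tm j z^l = j(o) ∑_i w_i^l ⊗ e_i`, `v = ∑_l j(o)^(-1) β_l tm j z^l`. -/
def S_SPN : Prop :=
  ∀ (p : ℕ) [Fact p.Prime] (O : Type) [CommRing O] [IsDomain O] [Algebra ℤ_[p] O]
    (j : O →+* ℂ_[p]), Function.Injective j →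
    (∀ x : ℤ_[p], j (algebraMap ℤ_[p] O x) = algebraMap ℚ_[p] ℂ_[p] x) →
  ∀ (A : Type) [AddCommGroup A] [Module.Finite ℤ A] (I J : Type) (f : I → A →+ ℚ_[p])
    (φ : J → A →+ A) (c : J → O) (v : ℂ_[p] ⊗[ℤ] A),
    (∀ i, extHom (((algebraMap ℚ_[p] ℂ_[p] : ℚ_[p] →+* ℂ_[p]) : ℚ_[p] →+ ℂ_[p]).comp (f i)) v = 0) →
    (∀ h, extEnd (φ h) v = j (c h) • v) →
    v ∈ Submodule.span ℂ_[p] {w : ℂ_[p] ⊗[ℤ] A | (∃ z : O ⊗[ℤ] A, w = tm j A z) ∧
      (∀ i, extHom (((algebraMap ℚ_[p] ℂ_[p] : ℚ_[p] →+* ℂ_[p]) : ℚ_[p] →+ ℂ_[p]).comp (f i)) w =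
        0) ∧ ∀ h, extEnd (φ h) w = j (c h) • w}

/-! ## Number fields -/

/-- **S_TOR** (II.1). One can choose `g ∈ Gal(Ω/K)` with `η₁(g) ≠ 1` and a constant `C` such that for all `m` there is a
natural number `a` with `g x = x^a` for all the units `x` of `F m` of `p`-power order and `(χ(g) - a) ∣ p^C` in `O`.

PROOF. Let `d > 0` with `χ^d = 1`. Let `cyc = cyclotomicCharacter Ω p` (Mathlib; `Ω` has all roots of unity). CLAIM: there is `g` with `η₁(g) ≠ 1` and `cyc(g)^d ≠ 1`. Otherwise `cyc(g)^d = 1` for all `g` with `η₁(g) ≠ 1`; let `g₁` be one of them (`η₁ ≠ 1`); if `η₁(h) = 1` then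
`η₁(g₁ h) ≠ 1`, so `cyc(h)^d = cyc(g₁ h)^d / cyc(g₁)^d = 1`. So `cyc(g)^d = 1` for all `g ∈ Gal(Ω/K)`, the image of `cyc` is a set of at most `d` elements of the domain `ℤ_p`. Let `ζ ∈ Ω` be a primitive `p^c`-th root of unity; its conjugates over `K` are the
`ζ^(cyc(g) mod p^c)`, at most `d` elements, so `[K(ζ):K] ≤ d`, `φ(p^c) = [ℚ(ζ):ℚ] ≤ [K(ζ):ℚ] ≤ d [K:ℚ]` for all `c`, a contradiction.
Let `g` be as in the claim and `v = ord_p(cyc(g)^d - 1) < ∞`; `C = v`. Given `m`, let `c > v` be such that every unit of `F m` of `p`-power order is killed by `p^c` (the torsion is finite), and `a = (cyc(g) mod p^c).val`, so `g x = x^a` if `x^(p^c) = 1`. Then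
`a^d - 1 ≡ cyc(g)^d - 1 mod p^c`, so `a^d - 1 = p^v u`, `u` a unit of `ℤ_p`. In `O`, `χ(g) - a` divides `χ(g)^d - a^d = 1 - a^d` (`sub_dvd_pow_sub_pow`), which is `-u p^v`. -/
def S_TOR : Prop :=
  ∀ (p : ℕ) [Fact p.Prime] (K : Type) [Field K] [NumberField K]
    (χ η₁ : Chr K (AlgebraicClosure K) ℂ_[p]) (d : ℕ), 0 < d → χ ^ d = 1 → η₁ ≠ 1 →
  ∀ (F : ℕ → IntermediateField K (AlgebraicClosure K)) [∀ m, NumberField (F m)]
    [∀ m, IsGalois K (F m)] (O : Type) [CommRing O] [Algebra ℤ_[p] O] (j : O →+* ℂ_[p]),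
    Function.Injective j →
    (∀ x : ℤ_[p], j (algebraMap ℤ_[p] O x) = algebraMap ℚ_[p] ℂ_[p] x) →
  ∀ (c : (AlgebraicClosure K ≃ₐ[K] AlgebraicClosure K) → O), (∀ g, j (c g) = (χ g : ℂ_[p]ˣ)) →
  ∃ (g : AlgebraicClosure K ≃ₐ[K] AlgebraicClosure K) (C : ℕ), η₁ g ≠ 1 ∧ ∀ m, ∃ a : ℕ,
    (∀ (x : Additive (𝓞 (F m))ˣ) (n : ℕ), p ^ n • x = 0 → ug (F m) g x = a • x) ∧
    (c g - (a : O)) ∣ (p : O) ^ C

/-- **S_INF** (the `Σ`-Leopoldt statement for a character `ψ` can be tested on any Galois extension `F` which contains the field of `ψ`).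

PROOF. `N := {x ∈ Ω : g x = x for all g with ψ(g) = 1}` restricted to `F`; the field `H` cut out by `ψ` is contained in `F`: `H` exists (`H` is the fixed field in `F` of the image of the kernel of `ψ`; `CutsOut`: if `g` fixes `H` then its restriction to `F` is in the image of `ker ψ` by Galois
theory, and `ψ` factors through `Gal(F/K)`), `H/K` is Galois (normal because the kernel is a normal subgroup), finite. Any two fields cut out by `ψ` are equal. `LeopoldtOn` on `H`: the character `χ'` of `Gal(H/K)` is determined (restriction `Gal(Ω/K) → Gal(H/K)` is surjective), and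
`InjectiveOn` says: `x ∈ k ⊗ E_H` with logarithms of `e_χ' x` zero implies `e_χ' x = 0`; equivalently (`e_χ' x = x` iff `h x = χ'(h) x` for all `h`): every `x ∈ k ⊗ E_H` with `h x = χ'(h) x` and `log_σ x = 0` (`σ : H → Ω` with `ι_∞ σ|_K ∈ S`; the `ι_p σ` are the embeddings
`H → ℂ_p` above `TSet`: an embedding `H → ℂ_p` above `ι_p σ₀` is `ι_p σ` for an extension `σ` of `σ₀`, since `H/K` is algebraic) is zero.
(→) Let `v ∈ k ⊗ E_F`, `g v = ψ(g) v`, `log_τ v = 0`. `i : k ⊗ E_H → k ⊗ E_F` (injective: `E_H → E_F` is injective and `k` is flat over `ℤ`), `N : k ⊗ E_F → k ⊗ E_H` the norm, `i N = ∑_(g ∈ Gal(F/H)) g`. So `i N v = [F:H] v`, put `x = N v`: `h x = χ'(h) x` (apply the injective map `i`); for `τ₀ : H → ℂ_p` above `TSet`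
take an extension `τ : F → ℂ_p` (`ℂ_p` is algebraically closed), `log_τ₀(x) = log_τ(i x) = [F:H] log_τ v = 0`. So `x = 0`, `[F:H] v = 0`, `v = 0`.
(←) If `x ∈ k ⊗ E_H`, `h x = χ'(h) x`, `log x = 0`, then `v = i x` satisfies the conditions (an embedding `τ` of `F` above `TSet` restricts to an embedding of `H` above `TSet`), so `i x = 0`, `x = 0`. -/
def S_INF : Prop :=
  ∀ (p : ℕ) [Fact p.Prime] (K : Type) [Field K] [NumberField K]
    (ιinf : AlgebraicClosure K →+* ℂ) (ιp : AlgebraicClosure K →+* ℂ_[p]) (Lg : IwasawaLog p ℂ_[p])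
    (S : Set (K →+* ℂ)) (F : IntermediateField K (AlgebraicClosure K)) [NumberField F]
    [IsGalois K F] (ψ : Chr K (AlgebraicClosure K) ℂ_[p]),
    (∀ g : AlgebraicClosure K ≃ₐ[K] AlgebraicClosure K, (∀ x ∈ F, g x = x) → ψ g = 1) →
  (LeopoldtFor ιinf ιp Lg S ψ ↔ ∀ v : ℂ_[p] ⊗[ℤ] Additive (𝓞 F)ˣ,
    (∀ g, extEnd (ug F g) v = ((ψ g : ℂ_[p]ˣ) : ℂ_[p]) • v) →
    (∀ τ ∈ (above (TSet ιinf ιp S) : Set (F →+* ℂ_[p])), extHom (logUnits Lg τ) v = 0) → v = 0)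

/-- **S_UNR** (base change of unramified extensions). `F₀ ≤ F` are Galois over `K`, `N/K` is Galois with `F = F₀ N` in the form: an automorphism trivial on `F₀` and `N` is trivial on `F`. If the prime `v` of `K` below `W` is unramified in `N` then `W` is unramified over `F₀`.

PROOF. Inertia groups. `I = {g ∈ Gal(F/F₀) : g x - x ∈ W for all x ∈ 𝓞_F}` has order `e(W/W₀)`, `W₀ = W ∩ F₀` (Mathlib `Ideal.card_inertia_eq_ramificationIdxIn` for the group `Gal(F/F₀)`). If `g ∈ I` then its restriction to `N` is in the inertia group of `V = W ∩ N` in `Gal(N/K)`, of order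
`e(V/v) = 1` (`v 𝓞_N` is not contained in `V²`; `v ⊆ V`), so `g` is trivial on `N` and on `F₀`, `g = 1`. So `e(W/W₀) = 1`: an element `π ∈ F₀` with `ord_(W₀)(π) = 1` satisfies `ord_W(π) = 1`. -/
def S_UNR : Prop :=
  ∀ (K : Type) [Field K] [NumberField K] (F₀ F N : IntermediateField K (AlgebraicClosure K))
    [NumberField F₀] [NumberField F] [NumberField N] [IsGalois K F₀] [IsGalois K F] [IsGalois K N],
    F₀ ≤ F → N ≤ F →
    (∀ g : AlgebraicClosure K ≃ₐ[K] AlgebraicClosure K, (∀ x ∈ F₀, g x = x) → (∀ x ∈ N, g x = x) →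
      ∀ x ∈ F, g x = x) →
  ∀ (W : HeightOneSpectrum (𝓞 F)) (v : HeightOneSpectrum (𝓞 K)),
    W.asIdeal.comap (algebraMap (𝓞 K) (𝓞 F)) = v.asIdeal →
    (∀ V : HeightOneSpectrum (𝓞 N),
      ¬ v.asIdeal.map (algebraMap (𝓞 K) (𝓞 N)) ≤ V.asIdeal ^ 2) → Uni F₀ F W

/-- **S_SPL** (a prime with trivial decomposition group in `N`). `F₀`, `F`, `N` as in `S_UNR`. If the decomposition group in `Gal(N/K)` of the prime `V` of `N` below `W` is trivial, then `W` is unramified over `F₀`.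

PROOF. Let `g ∈ Gal(F/F₀)` with `W.valuation (g y) = W.valuation y` for all `y ∈ F`; its restriction `g'` to `N` satisfies `y ∈ V ↔ g' y ∈ V` for `y ∈ 𝓞_N`, so `V.valuation (g' y) = V.valuation y` (an automorphism which maps `V` to `V` preserves the valuation; see `Pool/Agent/Helper40/RS`, `Pool/Agent/Helper30/PW/WDEC.lean`);
`FreeP K V` gives `g' = 1`: `g` is trivial on `N` and on `F₀`, `g = 1`. So the decomposition group of `W` over `F₀` is trivial (`FreeP F₀ W`), and `W.valuation x = W₀.valuation x` for `x ∈ F₀`: `Pool.Agent.Helper13.RD.ram_free`, `Pool.Agent.Helper40.RD.valW`, or `N_DNS` (Goals1, proved). Take `π ∈ F₀` with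
`W₀.valuation π = exp (-1)`. -/
def S_SPL : Prop :=
  ∀ (K : Type) [Field K] [NumberField K] (F₀ F N : IntermediateField K (AlgebraicClosure K))
    [NumberField F₀] [NumberField F] [NumberField N] [IsGalois K F₀] [IsGalois K F] [IsGalois K N],
    F₀ ≤ F → N ≤ F →
    (∀ g : AlgebraicClosure K ≃ₐ[K] AlgebraicClosure K, (∀ x ∈ F₀, g x = x) → (∀ x ∈ N, g x = x) →
      ∀ x ∈ F, g x = x) →
  ∀ (W : HeightOneSpectrum (𝓞 F)) (V : HeightOneSpectrum (𝓞 N)),
    (∀ (x : 𝓞 N) (y : 𝓞 F), ((x : N) : AlgebraicClosure K) = ((y : F) : AlgebraicClosure K) →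
      (x ∈ V.asIdeal ↔ y ∈ W.asIdeal)) →
    FreeP K V → Uni F₀ F W

end Pool.Agent.Helper17.TH
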