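import Pool.Agent.Helper17.TH.INS3

/-!
# Project TH (MP_fc6b1e_nt), part II: the abstract statement
-/

set_option autoImplicit false

namespace Pool.Agent.Helper17.TH

open Module TensorProduct Polynomial
open Pool.Agent.Helper51.SigLeo

section

variable {p : ℕ} [Fact p.Prime] {A : Type} [AddCommGroup A] [Module.Finite ℤ A] {G : Type}
  [Group G] {act : G → A →+ A} {χ η : G →* ℂ_[p]ˣ} {gt : G} {ℓs : Set (A →+ ℂ_[p])}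
  {O : Type} [CommRing O] [IsDomain O] [Algebra ℤ_[p] O] [Module.Finite ℤ_[p] O]
  (j : O →+* ℂ_[p])

theorem ins_main (hD : S_DET) (hC : S_COK) (h1 : S_TEN1) (h2 : S_TEN2) (h3 : S_CLS) (h4 : S_SPN)
    (H : Acts act χ η gt) (hℓ : ∀ ℓ ∈ ℓs, ∀ g, ℓ.comp (act g) ∈ ℓs)
    (hj : Function.Injective j)
    (hjp : ∀ x : ℤ_[p], j (algebraMap ℤ_[p] O x) = algebraMap ℚ_[p] ℂ_[p] x) (c : G → O)
    (hc : ∀ g, j (c g) = ((χ g : ℂ_[p]ˣ) : ℂ_[p])) (B C CG : ℕ) {ι : Type} [Fintype ι]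
    (b : Basis ι ℤ_[p] O)
    (hcyc : ∃ ζ : A, ∀ (x : A) (n : ℕ), p ^ n • x = 0 → ∃ k : ℕ, x = k • ζ) (g₀ : G)
    (hg₀ : χ g₀ = 1)
    (hgen : ∀ (s : Finset A), (∀ u ∈ s, ∃ w, act g₀ u - u = p • w) →
      (∀ u ∈ s, ∀ v ∈ s, (∃ w, u - v = p • w) → u = v) → s.card ≤ CG)
    (htor : ∃ a : ℕ, (∀ (x : A) (n : ℕ), p ^ n • x = 0 → act gt x = a • x) ∧
      (c gt - (a : O)) ∣ (p : O) ^ C)
    (hexp : ∀ (k : ℕ) (z : O ⊗[ℤ] A), (∀ ℓ ∈ ℓs, extHom ℓ (tm j A z) = 0) →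
      (∀ g, ∃ y : O ⊗[ℤ] A, exO O (act g) z - c g • z = p ^ k • y) →
      ∃ y : O ⊗[ℤ] A, p ^ B • z = p ^ k • y)
    (hinf : ∀ v : ℂ_[p] ⊗[ℤ] A, (∀ g, extEnd (act g) v = ((χ g : ℂ_[p]ˣ) : ℂ_[p]) • v) →
      (∀ ℓ ∈ ℓs, extHom ℓ v = 0) → v = 0)
    (hrat : ∃ (n : ℕ) (f : Fin n → (A →+ ℚ_[p])),
      (∀ z : ℂ_[p] ⊗[ℤ] A, (∀ ℓ ∈ ℓs, extHom ℓ z = 0) →
        ∀ i, extHom (((algebraMap ℚ_[p] ℂ_[p] : ℚ_[p] →+* ℂ_[p]) : ℚ_[p] →+ ℂ_[p]).comp (f i)) z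
          = 0) ∧
      ∀ ℓ ∈ ℓs, ∃ c : Fin n → ℂ_[p], ∀ u, ℓ u = ∑ i, f i u • c i) :
    ∃ D : ℤ_[p][X], D.eval 0 = (p : ℤ_[p]) ^ ((B + C) * (p * CG) ^ Fintype.card ι) ∧
      ∀ (t : ℂ_[p]) (v : ℂ_[p] ⊗[ℤ] A), v ∈ Wsub act χ η ℓs → v ≠ 0 →
        extEnd (act gt) v - ((χ gt : ℂ_[p]ˣ) : ℂ_[p]) • v = t • v → D.eval₂ (zc p) t = 0 := by
  classical
  letI mV : Module ℤ_[p] (ℂ_[p] ⊗[ℤ] A) := Module.compHom _ (zc p)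
  have hcompat : ∀ (r : ℤ_[p]) (v : ℂ_[p] ⊗[ℤ] A), r • v = zc p r • v := fun r v ↦ rfl
  have hjp' : ∀ x : ℤ_[p], j (algebraMap ℤ_[p] O x) = zc p x := hjp
  let L : (O ⊗[ℤ] A) →ₗ[ℤ_[p]] (ℂ_[p] ⊗[ℤ] A) :=
    { toFun := tm j A
      map_add' := map_add _
      map_smul' := fun r z ↦ by
        rw [RingHom.id_apply, hcompat, ← hjp', ← tm_smul, algebraMap_smul] }
  have hL : ∀ z, L z = tm j A z := fun z ↦ rfl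
  have hfin : Module.Finite ℤ_[p] (O ⊗[ℤ] A) := by
    have : Module.Finite O (O ⊗[ℤ] A) := inferInstance
    exact Module.Finite.trans O _
  have hfin' : Module.Finite ℤ_[p] (LinearMap.range L) := inferInstance
  have hΛ : ∀ v, v ∈ LinearMap.range L ↔ ∃ z, v = tm j A z := by
    intro v
    rw [LinearMap.mem_range]
    exact ⟨fun ⟨z, hz⟩ ↦ ⟨z, hz.symm⟩, fun ⟨z, hz⟩ ↦ ⟨z, hz.symm⟩⟩
  let T : (ℂ_[p] ⊗[ℤ] A) →ₗ[ℂ_[p]] (ℂ_[p] ⊗[ℤ] A) :=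
    extEnd (act gt) - ((χ gt : ℂ_[p]ˣ) : ℂ_[p]) • LinearMap.id
  have hT : ∀ v, T v = extEnd (act gt) v - ((χ gt : ℂ_[p]ˣ) : ℂ_[p]) • v := fun v ↦ rfl
  obtain ⟨D, hD0, hDr⟩ := abs_main hD hC (ℂ_[p] ⊗[ℤ] A) hcompat (LinearMap.range L) T
    (Wsub act χ η ℓs) (fun v hv ↦ by
      rw [hT]
      exact sub_mem (H.W_ext hℓ gt hv) (Submodule.smul_mem _ _ hv)) (fun v hv ↦ by
      obtain ⟨z, rfl⟩ := (hΛ v).1 hv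
      refine (hΛ _).2 ⟨exO O (act gt) z - c gt • z, ?_⟩
      rw [hT, map_sub, tm_exO, tm_smul, hc]) (fun v hv hv0 ↦ by
      rw [hT, sub_eq_zero] at hv0
      exact hinf v (H.eig hv hv0) hv.1) (fun v hv ↦ by
      have := ins_span (O := O) j c h4 hj hjp hc hrat v hv
      refine Submodule.span_mono ?_ this
      rintro w ⟨hw1, hw2⟩
      exact ⟨(hΛ w).2 hw1, hw2⟩) (B + C) ((p * CG) ^ Fintype.card ι) (fun k y v hy hyW hv hvW hTy ↦ by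
      obtain ⟨yh, rfl⟩ := (hΛ y).1 hy
      obtain ⟨vh, rfl⟩ := (hΛ v).1 hv
      obtain ⟨y3, hy3⟩ := ins_b j c H hℓ h1 hj hc B C htor hexp k yh vh hyW hTy
      exact ⟨_, (hΛ _).2 ⟨y3, rfl⟩, hy3⟩) (fun s hs1 hs2 ↦
      ins_a (ℓs := ℓs) j H h1 h2 h3 hj c hc CG b hcyc g₀ hg₀ hgen s (fun u hu ↦ by
        obtain ⟨h5, h6, w, h7, h8, h9⟩ := hs1 u hu
        exact ⟨(hΛ u).1 h5, h6, w, (hΛ w).1 h7, h8, h9⟩) (fun u hu v hv ⟨w, h7, h8, h9⟩ ↦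
        hs2 u hu v hv ⟨w, (hΛ w).2 h7, h8, h9⟩))
  exact ⟨D, hD0, fun t v hv hv0 htv ↦ hDr t v hv hv0 htv⟩

end

end Pool.Agent.Helper17.TH
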