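import Pool.Agent.Helper17.TH.MAIN
import Pool.Agent.Helper38.TH.GoalsD

/-!
# Project TH (MP_fc6b1e_nt), part II: the dichotomy
-/

set_option autoImplicit false

namespace Pool.Agent.Helper17.TH

open NumberField Module IsDedekindDomain TensorProduct Polynomial
open Pool.Agent.Helper51.SigLeo Pool.Agent.Helper51.RP Pool.Agent.Helper42.RD
open Pool.Agent.Helper38.FD (Chr CutsOut LeopoldtFor)
open Pool.Agent.Helper38.TH (IsTower Hat Unr RamD DICH)

variable {p : ℕ} [Fact p.Prime] {K : Type} [Field K] [NumberField K]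

/-- a character with a finite field has finite order -/
theorem finite_order {χ : Chr K (AlgebraicClosure K) ℂ_[p]}
    {E : IntermediateField K (AlgebraicClosure K)} [FiniteDimensional K E] (hE : CutsOut χ E) :
    ∃ d : ℕ, 0 < d ∧ χ ^ d = 1 := by
  have hG : IsGalois K E := Pool.Agent.Helper38.FD.isGalois_of_cutsOut hE
  have hfin : Finite (E ≃ₐ[K] E) := inferInstance
  refine ⟨Nat.card (E ≃ₐ[K] E), Nat.card_pos, ?_⟩
  ext g
  have h1 : (AlgEquiv.restrictNormalHom E g) ^ Nat.card (E ≃ₐ[K] E) = 1 := pow_card_eq_one'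
  have h2 : χ (g ^ Nat.card (E ≃ₐ[K] E)) = 1 := by
    rw [hE]
    intro x hx
    have h3 := AlgEquiv.restrictNormalHom_apply E (g ^ Nat.card (E ≃ₐ[K] E)) ⟨x, hx⟩
    rw [map_pow, h1] at h3
    exact h3.symm
  rw [MonoidHom.pow_apply, ← map_pow, h2]
  rfl

/-- The elements of `Hat η` -/
theorem hat_cases {η : ℕ → Chr K (AlgebraicClosure K) ℂ_[p]} (h0 : η 0 = 1)
    (hs : ∀ n, η (n + 1) ^ p = η n) (ξ : Chr K (AlgebraicClosure K) ℂ_[p]) (hξ : ξ ∈ Hat η) :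
    ξ = 1 ∨ ∃ n b : ℕ, 1 ≤ n ∧ ¬ p ∣ b ∧ ξ = η n ^ b := by
  obtain ⟨n, a, rfl⟩ := hξ
  induction n generalizing a with
  | zero =>
    left
    rw [h0]
    ext g
    simp only [MonoidHom.pow_apply, MonoidHom.one_apply, one_pow]
  | succ n ih =>
    by_cases ha : p ∣ a
    · obtain ⟨b, rfl⟩ := ha
      have e : η (n + 1) ^ (p * b) = (η (n + 1) ^ p) ^ b := by
        ext g
        simp only [MonoidHom.pow_apply, pow_mul]
      rw [e, hs]
      exact ih b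
    · exact Or.inr ⟨n + 1, a, by omega, ha, rfl⟩

theorem dich_of (hD : S_DET) (hC : S_COK) (h1 : S_TEN1) (h2 : S_TEN2) (h3 : S_CLS) (h4 : S_SPN)
    (hTor : S_TOR) (hInf : S_INF) (hU : S_UNR) (hS : S_SPL) (hCnt : S_CNT) (hGen : S_GEN)
    (hExp : S_EXP) : DICH := by
  classical
  intro p hp K _ _ ιinf ιp Lg S hcl χ η hη hunr hram hL
  obtain ⟨E, hEf, hE, -⟩ := id hL
  obtain ⟨d, hd, hχ⟩ := finite_order hE
  obtain ⟨F, _, _, g₀, hT⟩ := exists_tw hU hS χ η hη hunr hram E hE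
  obtain ⟨gt, N, hgt, hmain⟩ := tw_main hD hC h1 h2 h3 h4 hTor hInf hGen hExp p K ιinf ιp Lg S hcl
    χ η F g₀ hT hL d hd hχ
  set Lv : Set ℕ := {n | 1 ≤ n ∧ ∃ b : ℕ, ¬ p ∣ b ∧ ¬ LeopoldtFor ιinf ιp Lg S (χ * η n ^ b)}
    with hLv
  have hLvfin : Lv.Finite := by
    by_contra hinf
    obtain ⟨s, hs1, hs2⟩ := Set.Infinite.exists_subset_card_eq hinf (N + 1)
    obtain ⟨D, hD0, hDr⟩ := hmain (s.sup id)
    have := hCnt p ((χ gt : ℂ_[p]ˣ) : ℂ_[p]) d hd (by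
      have h5 := congrArg (fun f : Chr K (AlgebraicClosure K) ℂ_[p] ↦
        ((f gt : ℂ_[p]ˣ) : ℂ_[p])) hχ
      simpa using h5) N D hD0 s (fun n hn ↦ by
      obtain ⟨hn1, b, hb, hbad⟩ := hs1 hn
      have hle : n ≤ s.sup id := Finset.le_sup (f := id) hn
      obtain ⟨k, hk⟩ := Nat.exists_eq_add_of_le hle
      refine ⟨hn1, (((η n ^ b) gt : ℂ_[p]ˣ) : ℂ_[p]), ?_, hDr (η n ^ b) (fun g hg ↦ ?_) hbad⟩
      · rw [MonoidHom.pow_apply, Units.val_pow_eq_pow_val]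
        refine (tow_prim hη.zero hη.pow gt hgt n hn1).pow_of_coprime b ?_
        exact Nat.Coprime.pow_right n ((Nat.Prime.coprime_iff_not_dvd hp.out).2 hb).symm
      · rw [MonoidHom.pow_apply, ← tow_pow hη.pow n k g, ← hk, hg, one_pow, one_pow])
    omega
  refine Set.Finite.subset (s := {1} ∪ ⋃ n ∈ Lv, (fun b : ℕ ↦ η n ^ b) '' Set.Iio (p ^ n)) ?_ ?_
  · refine (Set.finite_singleton _).union (hLvfin.biUnion fun n _ ↦ ?_)
    exact (Set.finite_Iio _).image _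
  · rintro ξ ⟨hξ, hbad⟩
    rcases hat_cases hη.zero hη.pow ξ hξ with rfl | ⟨n, b, hn, hb, rfl⟩
    · exact Or.inl rfl
    · right
      refine Set.mem_biUnion (show n ∈ Lv from ⟨hn, b, hb, hbad⟩) ⟨b % p ^ n,
        Nat.mod_lt _ (pow_pos hp.out.pos _), ?_⟩
      ext g
      simp only [MonoidHom.pow_apply]
      congr 1
      exact (pow_eq_pow_mod b (tow_one hη.zero hη.pow n g)).symm

end Pool.Agent.Helper17.TH
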