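import Pool.Agent.Helper17.TH.GoalsII

set_option autoImplicit false

namespace Pool.Agent.Helper17.TH

open Module Polynomial

section

variable {p : ℕ} [Fact p.Prime]

/-- Cayley-Hamilton: for an injective endomorphism `T` of a finitely generated module over `ℤ_p` and every `v` there is
`y` with `T y = p^k v`. -/
theorem exists_pre {N : Type} [AddCommGroup N] [Module ℤ_[p] N] [Module.Finite ℤ_[p] N]
    (T : N →ₗ[ℤ_[p]] N) (hT : ∀ x, T x = 0 → x = 0) :
    ∃ k : ℕ, ∀ v : N, ∃ y : N, T y = (p : ℤ_[p]) ^ k • v := by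
  classical
  obtain ⟨P0, hP0, hP0'⟩ := LinearMap.exists_monic_and_aeval_eq_zero ℤ_[p] T
  have hex : ∃ n : ℕ, ∃ P : ℤ_[p][X], P ≠ 0 ∧ aeval T P = 0 ∧ P.natDegree = n :=
    ⟨_, P0, hP0.ne_zero, hP0', rfl⟩
  obtain ⟨P, hP, hPT, hPn⟩ := Nat.find_spec hex
  have hc : P.coeff 0 ≠ 0 := by
    intro h0
    have hdiv : X * P.divX = P := by
      have := P.X_mul_divX_add
      rwa [h0, map_zero, add_zero] at this
    have hQ : P.divX ≠ 0 := by
      intro h
      rw [h, mul_zero] at hdiv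
      exact hP hdiv.symm
    have hQT : aeval T P.divX = 0 := by
      ext x
      have := hPT
      rw [← hdiv, map_mul, aeval_X] at this
      have hx := congrArg (fun f : N →ₗ[ℤ_[p]] N ↦ f x) this
      simp only [Module.End.mul_apply, LinearMap.zero_apply] at hx
      simpa using hT _ hx
    have hlt : P.divX.natDegree < Nat.find hex := by
      rw [← hPn]
      have h1 : P.natDegree = P.divX.natDegree + 1 := by
        conv_lhs => rw [← hdiv]
        rw [natDegree_X_mul hQ]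
      omega
    exact Nat.find_min hex hlt ⟨_, hQ, hQT, rfl⟩
  have hun := PadicInt.unitCoeff_spec hc
  refine ⟨(P.coeff 0).valuation, fun v ↦ ?_⟩
  have h1 : T (aeval T P.divX v) = - (P.coeff 0 • v) := by
    have h2 : aeval T P v = 0 := by rw [hPT]; rfl
    rw [← P.X_mul_divX_add, map_add, map_mul, aeval_X, aeval_C] at h2
    simp only [LinearMap.add_apply, Module.End.mul_apply, Module.algebraMap_end_apply] at h2
    exact eq_neg_of_add_eq_zero_left h2
  set u : ℤ_[p]ˣ := PadicInt.unitCoeff hc with hu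
  refine ⟨- ((u⁻¹ : ℤ_[p]ˣ) : ℤ_[p]) • aeval T P.divX v, ?_⟩
  rw [map_smul, h1, smul_neg, neg_smul, neg_neg, smul_smul]
  congr 1
  conv_lhs => rw [hun, ← mul_assoc, Units.inv_mul, one_mul]

/-- The main abstract statement. -/
theorem abs_main (hD : S_DET) (hC : S_COK) (V : Type) [AddCommGroup V] [Module ℂ_[p] V]
    [Module ℤ_[p] V] (hcompat : ∀ (r : ℤ_[p]) (v : V), r • v = zc p r • v)
    (Λ : Submodule ℤ_[p] V) [Module.Finite ℤ_[p] Λ] (T : V →ₗ[ℂ_[p]] V) (W : Submodule ℂ_[p] V)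
    (hTW : ∀ v ∈ W, T v ∈ W) (hTΛ : ∀ v ∈ Λ, T v ∈ Λ) (hinj : ∀ v ∈ W, T v = 0 → v = 0)
    (hspan : ∀ v ∈ W, v ∈ Submodule.span ℂ_[p] {w | w ∈ Λ ∧ w ∈ W}) (B Q : ℕ)
    (hb : ∀ (k : ℕ) (y v : V), y ∈ Λ → y ∈ W → v ∈ Λ → v ∈ W → T y = p ^ k • v →
      ∃ y3 ∈ Λ, p ^ B • y = p ^ k • y3)
    (ha : ∀ s : Finset V, (∀ u ∈ s, u ∈ Λ ∧ u ∈ W ∧ ∃ w, w ∈ Λ ∧ w ∈ W ∧ T u = p • w) →
      (∀ u ∈ s, ∀ v ∈ s, (∃ w, w ∈ Λ ∧ w ∈ W ∧ u - v = p • w) → u = v) → s.card ≤ Q) :
    ∃ D : ℤ_[p][X], D.eval 0 = (p : ℤ_[p]) ^ (B * Q) ∧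
      ∀ (t : ℂ_[p]) (v : V), v ∈ W → v ≠ 0 → T v = t • v → D.eval₂ (zc p) t = 0 := by
  classical
  have hp0 : (p : ℂ_[p]) ≠ 0 := by exact_mod_cast (Fact.out : p.Prime).ne_zero
  have hsm : ∀ (k : ℕ) (v : V), (p ^ k : ℕ) • v = (p : ℂ_[p]) ^ k • v := by
    intro k v
    rw [← Nat.cast_smul_eq_nsmul ℂ_[p]]
    push_cast
    rfl
  have hzc : ∀ (k : ℕ) (v : V), ((p : ℤ_[p]) ^ k) • v = (p ^ k : ℕ) • v := by
    intro k v
    have : zc p ((p : ℤ_[p]) ^ k) = (p : ℂ_[p]) ^ k := by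
      rw [map_pow, map_natCast]
    rw [hcompat, this, hsm]
  have hcan : ∀ (k : ℕ) (v v' : V), (p ^ k : ℕ) • v = (p ^ k : ℕ) • v' → v = v' := by
    intro k v v' h
    rw [hsm, hsm] at h
    exact smul_right_injective V (pow_ne_zero k hp0) h
  let N : Submodule ℤ_[p] V :=
    { carrier := {v | v ∈ Λ ∧ v ∈ W}
      add_mem' := fun h h' ↦ ⟨add_mem h.1 h'.1, add_mem h.2 h'.2⟩
      zero_mem' := ⟨zero_mem _, zero_mem _⟩
      smul_mem' := fun r v h ↦ ⟨Submodule.smul_mem _ _ h.1, by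
        rw [hcompat]; exact Submodule.smul_mem _ _ h.2⟩ }
  have hNΛ : N ≤ Λ := fun v hv ↦ hv.1
  have hNfin : Module.Finite ℤ_[p] N := by
    have : IsNoetherian ℤ_[p] Λ := inferInstance
    have h1 : N.FG := isNoetherian_submodule.1 inferInstance N hNΛ
    exact Module.Finite.iff_fg.2 h1
  have hTr : ∀ (r : ℤ_[p]) (v : V), T (r • v) = r • T v := by
    intro r v
    rw [hcompat, hcompat, map_smul]
  let TN : N →ₗ[ℤ_[p]] N :=
    { toFun := fun v ↦ ⟨T v, hTΛ _ v.2.1, hTW _ v.2.2⟩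
      map_add' := fun v w ↦ Subtype.ext (map_add T _ _)
      map_smul' := fun r v ↦ Subtype.ext (hTr r v) }
  have hTNv : ∀ v : N, ((TN v : N) : V) = T v := fun v ↦ rfl
  have hTNinj : ∀ x, TN x = 0 → x = 0 := by
    intro x hx
    refine Subtype.ext (hinj _ x.2.2 ?_)
    have := congrArg (Subtype.val) hx
    exact this
  obtain ⟨k, hk⟩ := exists_pre TN hTNinj
  have hkill : ∀ v : N, ∃ y : N, (p : ℤ_[p]) ^ B • v = TN y := by
    intro v
    obtain ⟨y, hy⟩ := hk v
    have hy' : T (y : V) = p ^ k • (v : V) := by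
      have := congrArg Subtype.val hy
      rw [hTNv] at this
      rw [this, Submodule.coe_smul, hzc]
    obtain ⟨y3, hy3, h3⟩ := hb k y v y.2.1 y.2.2 v.2.1 v.2.2 hy'
    have hy3W : y3 ∈ W := by
      have h4 : (p : ℂ_[p]) ^ k • y3 ∈ W := by
        rw [← hsm, ← h3, hsm]
        exact Submodule.smul_mem _ _ y.2.2
      have h5 := Submodule.smul_mem W ((p : ℂ_[p]) ^ k)⁻¹ h4
      rwa [smul_smul, inv_mul_cancel₀ (pow_ne_zero k hp0), one_smul] at h5
    refine ⟨⟨y3, hy3, hy3W⟩, Subtype.ext ?_⟩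
    rw [hTNv, Submodule.coe_smul, hzc]
    change p ^ B • (v : V) = T y3
    apply hcan k
    rw [← map_nsmul, ← h3, map_nsmul, hy', smul_comm]
  obtain ⟨w, hw⟩ := hC p N TN Q (by
    intro s h1 h2
    have := ha (s.map ⟨Subtype.val, Subtype.val_injective⟩) (by
      intro u hu
      obtain ⟨u', hu', rfl⟩ := Finset.mem_map.1 hu
      obtain ⟨w, hw⟩ := h1 u' hu'
      refine ⟨u'.2.1, u'.2.2, w, w.2.1, w.2.2, ?_⟩
      have := congrArg Subtype.val hw
      rw [hTNv] at this
      simpa using this) (by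
      intro u hu v hv ⟨w, hw1, hw2, hw3⟩
      obtain ⟨u', hu', rfl⟩ := Finset.mem_map.1 hu
      obtain ⟨v', hv', rfl⟩ := Finset.mem_map.1 hv
      have := h2 u' hu' v' hv' ⟨⟨w, hw1, hw2⟩, Subtype.ext (by simpa using hw3)⟩
      rw [this])
    simpa using this)
  obtain ⟨D, hD0, hDN⟩ := hD ℤ_[p] N TN Q w ((p : ℤ_[p]) ^ B) hw (fun i ↦ hkill (w i))
  refine ⟨D, by rw [hD0, pow_mul], ?_⟩
  -- `D(T)` kills `N`, hence `W`
  have haev : ∀ (P : ℤ_[p][X]) (x : N), aeval T (P.map (zc p)) (x : V) = ((aeval TN P x : N) : V) := by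
    intro P
    induction P using Polynomial.induction_on' with
    | add P Q hP hQ =>
      intro x
      rw [Polynomial.map_add, map_add, map_add, LinearMap.add_apply, LinearMap.add_apply, hP, hQ]
      rfl
    | monomial n a =>
      intro x
      rw [Polynomial.map_monomial, aeval_monomial, aeval_monomial, Module.End.mul_apply,
        Module.End.mul_apply, Module.algebraMap_end_apply, Module.algebraMap_end_apply,
        Submodule.coe_smul, hcompat]
      congr 1
      induction n generalizing x with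
      | zero => rfl
      | succ n ih => rw [pow_succ, pow_succ, Module.End.mul_apply, Module.End.mul_apply,
          ← hTNv, ih]
  have hW0 : ∀ v ∈ W, aeval T (D.map (zc p)) v = 0 := by
    intro v hv
    refine Submodule.span_induction (p := fun v _ ↦ aeval T (D.map (zc p)) v = 0) ?_ ?_ ?_ ?_
      (hspan v hv)
    · intro x hx
      have := haev D ⟨x, hx⟩
      rw [hDN] at this
      exact this
    · exact map_zero _
    · intro x y _ _ hx hy
      rw [map_add, hx, hy, add_zero]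
    · intro c x _ hx
      rw [map_smul, hx, smul_zero]
  intro t v hv hv0 htv
  have h1 : ∀ (P : ℂ_[p][X]), aeval T P v = P.eval t • v := by
    intro P
    induction P using Polynomial.induction_on' with
    | add P Q hP hQ =>
      rw [map_add, LinearMap.add_apply, hP, hQ, eval_add, add_smul]
    | monomial n a =>
      rw [aeval_monomial, Module.End.mul_apply, Module.algebraMap_end_apply, eval_monomial,
        mul_smul]
      congr 1
      induction n with
      | zero => simp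
      | succ n ih => rw [pow_succ', Module.End.mul_apply, ih, map_smul, htv, smul_smul, pow_succ]
  have h2 := hW0 v hv
  rw [h1, smul_eq_zero] at h2
  rcases h2 with h2 | h2
  · rwa [eval_map] at h2
  · exact absurd h2 hv0

end

end Pool.Agent.Helper17.TH
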