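import Pool.Agent.Helper38.FD.Defs
import Pool.Agent.Helper42.RD.Defs
import Pool.Agent.Helper51.RP.Defs

/-!
# Project TH (MP_fc6b1e_nt, T100), part II: definitions

`Ω` is the algebraic closure of the number field `K`; `χ` is a character of `Gal(Ω/K)` of finite order, `η n` is a tower
of characters with `η 0 = 1`, `η 1 ≠ 1`, `η (n+1)^p = η n`; `F n` is the field cut out by `χ` and `η n` together (so
`F 0` is the field of `χ`). `O` is a finite free `ℤ_p`-algebra which is a domain, `j : O → ℂ_p` is injective.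
-/

set_option autoImplicit false

namespace Pool.Agent.Helper17.TH

open NumberField Module IsDedekindDomain TensorProduct
open Pool.Agent.Helper51.SigLeo Pool.Agent.Helper51.RP
open Pool.Agent.Helper38.FD (Chr CutsOut LeopoldtFor)

section coeff

/-- The `O`-linear extension to `O ⊗ A` of an endomorphism of `A`. -/
noncomputable def exO (O : Type) [CommRing O] {A : Type} [AddCommGroup A] (f : A →+ A) :
    (O ⊗[ℤ] A) →ₗ[O] (O ⊗[ℤ] A) :=
  f.toIntLinearMap.baseChange O

/-- The map `O ⊗ A → k ⊗ A` induced by `j : O → k`. -/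
noncomputable def tm {O k : Type} [CommRing O] [CommRing k] (j : O →+* k) (A : Type)
    [AddCommGroup A] : (O ⊗[ℤ] A) →ₗ[ℤ] (k ⊗[ℤ] A) :=
  TensorProduct.map (j : O →+ k).toIntLinearMap LinearMap.id

end coeff

section fields

variable {K : Type} [Field K]

/-- The action of `g ∈ Gal(Ω/K)` on the units of the Galois extension `F` of `K`, written additively. -/
noncomputable def ug (F : IntermediateField K (AlgebraicClosure K)) [Normal K F]
    (g : AlgebraicClosure K ≃ₐ[K] AlgebraicClosure K) : Additive (𝓞 F)ˣ →+ Additive (𝓞 F)ˣ :=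
  unitsHom (AlgEquiv.restrictNormalHom F g)

/-- The prime `W` of `F` is not ramified over the subfield `F₀`: there is an element of `F₀` of valuation `1` at `W`. -/
def Uni (F₀ F : IntermediateField K (AlgebraicClosure K)) [NumberField F]
    (W : HeightOneSpectrum (𝓞 F)) : Prop :=
  ∃ π : F, (π : AlgebraicClosure K) ∈ F₀ ∧ ordv W π = 1

/-- `g` is in the decomposition group of the prime of `F₀` below `W`. -/
def DecW (F₀ F : IntermediateField K (AlgebraicClosure K)) [NumberField F]
    (W : HeightOneSpectrum (𝓞 F)) (g : AlgebraicClosure K ≃ₐ[K] AlgebraicClosure K) : Prop :=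
  ∀ x y : F, (x : AlgebraicClosure K) ∈ F₀ → (y : AlgebraicClosure K) = g x →
    ordv W y = ordv W x

variable {p : ℕ} [Fact p.Prime]

/-- The tower of the fields `F m`, at finite level. `g₀` generates all the groups `Gal(F m/F 0)`. All the primes of `F m`
not above `p` are unramified over `F 0`; for the primes `W` above `p`: `W` is unramified over `F 0` or `χ` is not trivial
on the decomposition group of the prime of `F 0` below `W`. -/
structure Tw [NumberField K] (χ : Chr K (AlgebraicClosure K) ℂ_[p])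
    (η : ℕ → Chr K (AlgebraicClosure K) ℂ_[p])
    (F : ℕ → IntermediateField K (AlgebraicClosure K)) [∀ m, NumberField (F m)]
    (g₀ : AlgebraicClosure K ≃ₐ[K] AlgebraicClosure K) : Prop where
  zero : η 0 = 1
  one : η 1 ≠ 1
  succ : ∀ n, η (n + 1) ^ p = η n
  cut : ∀ m g, (∀ x ∈ F m, g x = x) ↔ χ g = 1 ∧ η m g = 1
  g₀χ : χ g₀ = 1
  g₀η : ∀ m g, χ g = 1 → ∃ i : ℕ, η m g = η m g₀ ^ i
  unr : ∀ (m : ℕ) (W : HeightOneSpectrum (𝓞 (F m))), (p : 𝓞 (F m)) ∉ W.asIdeal →
    Uni (F 0) (F m) W
  loc : ∀ (m : ℕ) (W : HeightOneSpectrum (𝓞 (F m))), Uni (F 0) (F m) W ∨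
    ∃ g, DecW (F 0) (F m) W g ∧ χ g ≠ 1

end fields

end Pool.Agent.Helper17.TH
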