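import Pool.Agent.Helper17.TH.Defs

/-!
# Project TH (MP_fc6b1e_nt, T100), part II: the two interfaces GEN and EXP

Both are proved in block II.2-II.5 (helper31), and used in II.6 (helper17).
-/

set_option autoImplicit false

namespace Pool.Agent.Helper17.TH

open NumberField Module IsDedekindDomain TensorProduct
open Pool.Agent.Helper51.SigLeo Pool.Agent.Helper51.RP Pool.Agent.Helper42.RD
open Pool.Agent.Helper38.FD (Chr CutsOut LeopoldtFor)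

/-- **S_GEN** (II.3). The number of the classes of `E_m / p` fixed by `g₀` is bounded independently of `m`. -/
def S_GEN : Prop :=
  ∀ (p : ℕ) [Fact p.Prime] (K : Type) [Field K] [NumberField K]
    (χ : Chr K (AlgebraicClosure K) ℂ_[p]) (η : ℕ → Chr K (AlgebraicClosure K) ℂ_[p])
    (F : ℕ → IntermediateField K (AlgebraicClosure K)) [∀ m, NumberField (F m)]
    [∀ m, IsGalois K (F m)] (g₀ : AlgebraicClosure K ≃ₐ[K] AlgebraicClosure K),
    Tw χ η F g₀ →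
  ∃ C : ℕ, ∀ (m : ℕ) (s : Finset (Additive (𝓞 (F m))ˣ)),
    (∀ u ∈ s, ∃ w, ug (F m) g₀ u - u = p • w) →
    (∀ u ∈ s, ∀ v ∈ s, (∃ w, u - v = p • w) → u = v) → s.card ≤ C

/-- **S_EXP** (II.5). `χ` satisfies the conclusion of the `Σ`-Leopoldt conjecture. There is `B` such that for all `m`,
`k` and `z ∈ O ⊗ E_m` in the kernel of the logarithms above `T` with `g z ≡ χ(g) z mod p^k (O ⊗ E_m)` for all
`g ∈ Gal(Ω/K)`: `p^B z ∈ p^k (O ⊗ E_m)`. -/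
def S_EXP : Prop :=
  ∀ (p : ℕ) [Fact p.Prime] (K : Type) [Field K] [NumberField K]
    (ιinf : AlgebraicClosure K →+* ℂ) (ιp : AlgebraicClosure K →+* ℂ_[p]) (Lg : IwasawaLog p ℂ_[p])
    (S : Set (K →+* ℂ)), PlaceClosed (TSet ιinf ιp S) →
  ∀ (χ : Chr K (AlgebraicClosure K) ℂ_[p]) (η : ℕ → Chr K (AlgebraicClosure K) ℂ_[p])
    (F : ℕ → IntermediateField K (AlgebraicClosure K)) [∀ m, NumberField (F m)]
    [∀ m, IsGalois K (F m)] (g₀ : AlgebraicClosure K ≃ₐ[K] AlgebraicClosure K),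
    Tw χ η F g₀ → LeopoldtFor ιinf ιp Lg S χ →
  ∀ (O : Type) [CommRing O] [IsDomain O] [Algebra ℤ_[p] O] [Module.Finite ℤ_[p] O]
    [Module.Free ℤ_[p] O] (j : O →+* ℂ_[p]), Function.Injective j →
    (∀ x : ℤ_[p], j (algebraMap ℤ_[p] O x) = algebraMap ℚ_[p] ℂ_[p] x) →
  ∀ (c : (AlgebraicClosure K ≃ₐ[K] AlgebraicClosure K) → O), (∀ g, j (c g) = (χ g : ℂ_[p]ˣ)) →
  ∃ B : ℕ, ∀ (m k : ℕ) (z : O ⊗[ℤ] Additive (𝓞 (F m))ˣ),
    (∀ τ ∈ (above (TSet ιinf ιp S) : Set (F m →+* ℂ_[p])),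
      extHom (logUnits Lg τ) (tm j (Additive (𝓞 (F m))ˣ) z) = 0) →
    (∀ g, ∃ y : O ⊗[ℤ] Additive (𝓞 (F m))ˣ, exO O (ug (F m) g) z - c g • z = p ^ k • y) →
    ∃ y : O ⊗[ℤ] Additive (𝓞 (F m))ˣ, p ^ B • z = p ^ k • y

end Pool.Agent.Helper17.TH
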