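import Pool.Agent.Helper17.TH.INS0
import Pool.Agent.Helper17.TH.ABS

/-!
# Project TH (MP_fc6b1e_nt), part II: the abstract statement for a group acting on a finitely generated abelian group
-/

set_option autoImplicit false

namespace Pool.Agent.Helper17.TH

open Module TensorProduct Polynomial
open Pool.Agent.Helper51.SigLeo

section

variable {p : ℕ} [Fact p.Prime] {A : Type} [AddCommGroup A] {G : Type} [Group G]

/-- The vectors of `ℂ_p ⊗ A` killed by the homomorphisms in `ℓs`, on which the kernel of `η` acts by `χ`. -/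
noncomputable def Wsub (act : G → A →+ A) (χ η : G →* ℂ_[p]ˣ) (ℓs : Set (A →+ ℂ_[p])) :
    Submodule ℂ_[p] (ℂ_[p] ⊗[ℤ] A) where
  carrier := {v | (∀ ℓ ∈ ℓs, extHom ℓ v = 0) ∧
    ∀ h, η h = 1 → extEnd (act h) v = ((χ h : ℂ_[p]ˣ) : ℂ_[p]) • v}
  add_mem' := by
    rintro v w ⟨h1, h2⟩ ⟨h3, h4⟩
    refine ⟨fun ℓ hℓ ↦ by rw [map_add, h1 ℓ hℓ, h3 ℓ hℓ, add_zero], fun h hh ↦ by
      rw [map_add, h2 h hh, h4 h hh, smul_add]⟩
  zero_mem' := ⟨fun ℓ _ ↦ map_zero _, fun h _ ↦ by rw [map_zero, smul_zero]⟩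
  smul_mem' := by
    rintro r v ⟨h1, h2⟩
    refine ⟨fun ℓ hℓ ↦ by rw [map_smul, h1 ℓ hℓ, smul_zero], fun h hh ↦ by
      rw [map_smul, h2 h hh, smul_comm]⟩

theorem extHom_comp (ℓ : A →+ ℂ_[p]) (f : A →+ A) (v : ℂ_[p] ⊗[ℤ] A) :
    extHom ℓ (extEnd f v) = extHom (ℓ.comp f) v := by
  induction v using TensorProduct.induction_on with
  | zero => rw [map_zero, map_zero, map_zero]
  | add x y hx hy => rw [map_add, map_add, hx, hy, map_add]
  | tmul c a =>
    rw [extEnd_tmul, extHom_tmul, extHom_tmul]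
    rfl

/-- The action: `act` is multiplicative and the elements in the kernels of `χ` and `η` act trivially. `gt` generates the group
modulo the kernel of `η`. -/
structure Acts (act : G → A →+ A) (χ η : G →* ℂ_[p]ˣ) (gt : G) : Prop where
  mul : ∀ g h, act (g * h) = (act g).comp (act h)
  fix : ∀ g, χ g = 1 → η g = 1 → act g = AddMonoidHom.id A
  gen : ∀ g, ∃ i : ℕ, η g = η gt ^ i

variable {act : G → A →+ A} {χ η : G →* ℂ_[p]ˣ} {gt : G}

theorem Acts.comm (H : Acts act χ η gt) (g h : G) : act (g * h) = act (h * g) := by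
  have h1 : g * h = (h * g) * ((h * g)⁻¹ * (g * h)) := by group
  rw [h1, H.mul, H.fix ((h * g)⁻¹ * (g * h))]
  · rfl
  · rw [map_mul, map_inv, map_mul, map_mul, mul_comm (χ h), inv_mul_cancel]
  · rw [map_mul, map_inv, map_mul, map_mul, mul_comm (η h), inv_mul_cancel]

theorem Acts.decomp (H : Acts act χ η gt) (g : G) :
    ∃ (i : ℕ) (h : G), η h = 1 ∧ act g = (act (gt ^ i)).comp (act h) ∧ χ g = χ gt ^ i * χ h := by
  obtain ⟨i, hi⟩ := H.gen g
  refine ⟨i, (gt ^ i)⁻¹ * g, ?_, ?_, ?_⟩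
  · rw [map_mul, map_inv, map_pow, hi, inv_mul_cancel]
  · rw [← H.mul, mul_inv_cancel_left]
  · rw [map_mul, map_inv, map_pow, mul_inv_cancel_left]

theorem Acts.W_ext (H : Acts act χ η gt) {ℓs : Set (A →+ ℂ_[p])}
    (hℓ : ∀ ℓ ∈ ℓs, ∀ g, ℓ.comp (act g) ∈ ℓs) (g : G) {v : ℂ_[p] ⊗[ℤ] A}
    (hv : v ∈ Wsub act χ η ℓs) : extEnd (act g) v ∈ Wsub act χ η ℓs := by
  refine ⟨fun ℓ h ↦ ?_, fun h hh ↦ ?_⟩
  · rw [extHom_comp]
    exact hv.1 _ (hℓ ℓ h g)
  · rw [← extEnd_comp, ← H.mul, H.comm, H.mul, extEnd_comp, hv.2 h hh, map_smul]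

/-- On `W`, the kernel of `extEnd (act gt) - χ(gt)` consists of the vectors on which all of `G` acts by `χ`. -/
theorem Acts.eig (H : Acts act χ η gt) {ℓs : Set (A →+ ℂ_[p])} {v : ℂ_[p] ⊗[ℤ] A}
    (hv : v ∈ Wsub act χ η ℓs) (hT : extEnd (act gt) v = ((χ gt : ℂ_[p]ˣ) : ℂ_[p]) • v) (g : G) :
    extEnd (act g) v = ((χ g : ℂ_[p]ˣ) : ℂ_[p]) • v := by
  have hone : act 1 = AddMonoidHom.id A := H.fix 1 (map_one _) (map_one _)
  have hpow : ∀ i : ℕ, extEnd (act (gt ^ i)) v = (((χ gt) ^ i : ℂ_[p]ˣ) : ℂ_[p]) • v := by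
    intro i
    induction i with
    | zero => rw [pow_zero, pow_zero, hone, extEnd_id, Units.val_one, one_smul]
    | succ i ih => rw [pow_succ', H.mul, extEnd_comp, ih, map_smul, hT, smul_smul, pow_succ,
        Units.val_mul]
  obtain ⟨i, h, hh, hg, hχ⟩ := H.decomp g
  rw [hg, extEnd_comp, hv.2 h hh, map_smul, hpow, hχ, smul_smul, Units.val_mul, mul_comm]

variable {O : Type} [CommRing O] (j : O →+* ℂ_[p]) (c : G → O)

theorem c_mul (hj : Function.Injective j) (hc : ∀ g, j (c g) = ((χ g : ℂ_[p]ˣ) : ℂ_[p])) (g h : G) :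
    c (g * h) = c g * c h := by
  apply hj
  rw [map_mul, hc, hc, hc, map_mul, Units.val_mul]

theorem c_pow (hj : Function.Injective j) (hc : ∀ g, j (c g) = ((χ g : ℂ_[p]ˣ) : ℂ_[p])) (g : G)
    (i : ℕ) : c (g ^ i) = c g ^ i := by
  apply hj
  rw [map_pow, hc, hc, map_pow, Units.val_pow_eq_pow_val]

/-- Congruences for the powers of `gt` -/
theorem Acts.powO (H : Acts act χ η gt) (hj : Function.Injective j)
    (hc : ∀ g, j (c g) = ((χ g : ℂ_[p]ˣ) : ℂ_[p])) (q : ℕ) (z y : O ⊗[ℤ] A)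
    (h : exO O (act gt) z - c gt • z = q • y) (i : ℕ) :
    ∃ y', exO O (act (gt ^ i)) z - c (gt ^ i) • z = q • y' := by
  have hone : act 1 = AddMonoidHom.id A := H.fix 1 (map_one _) (map_one _)
  induction i with
  | zero =>
    refine ⟨0, ?_⟩
    rw [c_pow j c hj hc, pow_zero, pow_zero, hone, exO_id, one_smul, sub_self, smul_zero]
  | succ i ih =>
    obtain ⟨y', hy'⟩ := ih
    refine ⟨exO O (act gt) y' + c (gt ^ i) • y, ?_⟩
    have e1 : exO O (act (gt ^ i)) z = c (gt ^ i) • z + q • y' := by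
      rw [← hy']; abel
    have e2 : exO O (act gt) z = c gt • z + q • y := by
      rw [← h]; abel
    rw [pow_succ', H.mul, exO_comp, e1, map_add, map_smul, e2, c_mul j c hj hc, map_nsmul,
      smul_add, smul_smul, mul_comm (c (gt ^ i)), smul_add, smul_comm (c (gt ^ i)) q y]
    abel

end

end Pool.Agent.Helper17.TH
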