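import Pool.Agent.Helper17.TH.INS1

/-!
# Project TH (MP_fc6b1e_nt), part II: the conditions of `abs_main`
-/

set_option autoImplicit false

namespace Pool.Agent.Helper17.TH

open Module TensorProduct Polynomial
open Pool.Agent.Helper51.SigLeo

section

variable {p : ℕ} [Fact p.Prime] {A : Type} [AddCommGroup A] [Module.Finite ℤ A] {G : Type}
  [Group G] {act : G → A →+ A} {χ η : G →* ℂ_[p]ˣ} {gt : G} {ℓs : Set (A →+ ℂ_[p])}
  {O : Type} [CommRing O] [IsDomain O] [Algebra ℤ_[p] O] (j : O →+* ℂ_[p]) (c : G → O)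

/-- spanning -/
theorem ins_span (h4 : S_SPN) (hj : Function.Injective j)
    (hjp : ∀ x : ℤ_[p], j (algebraMap ℤ_[p] O x) = algebraMap ℚ_[p] ℂ_[p] x)
    (hc : ∀ g, j (c g) = ((χ g : ℂ_[p]ˣ) : ℂ_[p]))
    (hrat : ∃ (n : ℕ) (f : Fin n → (A →+ ℚ_[p])),
      (∀ z : ℂ_[p] ⊗[ℤ] A, (∀ ℓ ∈ ℓs, extHom ℓ z = 0) →
        ∀ i, extHom (((algebraMap ℚ_[p] ℂ_[p] : ℚ_[p] →+* ℂ_[p]) : ℚ_[p] →+ ℂ_[p]).comp (f i)) z
          = 0) ∧
      ∀ ℓ ∈ ℓs, ∃ c : Fin n → ℂ_[p], ∀ u, ℓ u = ∑ i, f i u • c i)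
    (v : ℂ_[p] ⊗[ℤ] A) (hv : v ∈ Wsub act χ η ℓs) :
    v ∈ Submodule.span ℂ_[p] {w | (∃ z : O ⊗[ℤ] A, w = tm j A z) ∧ w ∈ Wsub act χ η ℓs} := by
  obtain ⟨n, f, hf1, hf2⟩ := hrat
  have := h4 p O j hj hjp A (Fin n) {h : G // η h = 1} f (fun h ↦ act h) (fun h ↦ c h) v
    (hf1 v hv.1) (fun h ↦ by rw [hv.2 h.1 h.2, hc])
  refine Submodule.span_mono ?_ this
  rintro w ⟨hw1, hw2, hw3⟩
  refine ⟨hw1, fun ℓ hℓ ↦ ?_, fun h hh ↦ ?_⟩
  · obtain ⟨cc, hcc⟩ := hf2 ℓ hℓ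
    rw [extHom_sum (fun i ↦ (((algebraMap ℚ_[p] ℂ_[p] : ℚ_[p] →+* ℂ_[p]) :
      ℚ_[p] →+ ℂ_[p]).comp (f i))) ℓ cc (fun u ↦ by
        rw [hcc]
        exact Finset.sum_congr rfl fun i _ ↦ by
          rw [Algebra.smul_def]
          rfl) w]
    exact Finset.sum_eq_zero fun i _ ↦ by rw [hw2 i, zero_mul]
  · rw [hw3 ⟨h, hh⟩, hc]

/-- the bound for the exponent -/
theorem ins_b (H : Acts act χ η gt) (hℓ : ∀ ℓ ∈ ℓs, ∀ g, ℓ.comp (act g) ∈ ℓs)
    (h1 : S_TEN1) (hj : Function.Injective j)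
    (hc : ∀ g, j (c g) = ((χ g : ℂ_[p]ˣ) : ℂ_[p])) (B C : ℕ)
    (htor : ∃ a : ℕ, (∀ (x : A) (n : ℕ), p ^ n • x = 0 → act gt x = a • x) ∧
      (c gt - (a : O)) ∣ (p : O) ^ C)
    (hexp : ∀ (k : ℕ) (z : O ⊗[ℤ] A), (∀ ℓ ∈ ℓs, extHom ℓ (tm j A z) = 0) →
      (∀ g, ∃ y : O ⊗[ℤ] A, exO O (act g) z - c g • z = p ^ k • y) →
      ∃ y : O ⊗[ℤ] A, p ^ B • z = p ^ k • y)
    (k : ℕ) (yh vh : O ⊗[ℤ] A) (hy : tm j A yh ∈ Wsub act χ η ℓs)
    (hT : extEnd (act gt) (tm j A yh) - ((χ gt : ℂ_[p]ˣ) : ℂ_[p]) • tm j A yh =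
      p ^ k • tm j A vh) :
    ∃ y3 : O ⊗[ℤ] A, p ^ (B + C) • tm j A yh = p ^ k • tm j A y3 := by
  obtain ⟨a, ha, e, he⟩ := htor
  -- the operator `U = gt - a` kills the torsion
  have hU : ∀ z : O ⊗[ℤ] A, tm j A z = 0 → exO O (act gt) z = (a : O) • z := by
    intro z hz
    refine AddSubgroup.closure_induction (p := fun z _ ↦ exO O (act gt) z = (a : O) • z) ?_ ?_ ?_ ?_
      (h1 p O j hj A z hz)
    · rintro x ⟨o, x, n, hx, rfl⟩
      rw [exO_tmul, ha x n hx, Nat.cast_smul_eq_nsmul, TensorProduct.tmul_smul]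
    · rw [map_zero, smul_zero]
    · intro x y _ _ hx hy
      rw [map_add, hx, hy, smul_add]
    · intro x _ hx
      rw [map_neg, hx, smul_neg]
  set zh : O ⊗[ℤ] A := exO O (act gt) yh - (a : O) • yh with hzh
  have htm : ∀ (n : ℕ) (z : O ⊗[ℤ] A), tm j A (n • z) = n • tm j A z := fun n z ↦ map_nsmul _ _ _
  -- `T z ≡ 0`
  have hcomm : ∀ (g : G) (x : O ⊗[ℤ] A),
      exO O (act g) (exO O (act gt) x) = exO O (act gt) (exO O (act g) x) := by
    intro g x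
    rw [← exO_comp, ← exO_comp, ← H.mul, ← H.mul, H.comm]
  have e1 : exO O (act gt) zh - c gt • zh =
      p ^ k • (exO O (act gt) vh - (a : O) • vh) := by
    have h2 := hU (exO O (act gt) yh - c gt • yh - p ^ k • vh) (by
      rw [map_sub, map_sub, tm_exO, tm_smul, hc, hT, htm, sub_self])
    rw [map_sub, map_sub, map_smul, map_nsmul] at h2
    have h3 : exO O (act gt) (exO O (act gt) yh) = c gt • exO O (act gt) yh +
        p ^ k • exO O (act gt) vh + (a : O) • (exO O (act gt) yh - c gt • yh - p ^ k • vh) := by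
      rw [← h2]; abel
    rw [hzh, map_sub, map_smul, h3]
    simp only [smul_sub, smul_smul, mul_comm (a : O) (c gt)]
    rw [smul_comm (p ^ k) (a : O) vh]
    abel
  have e2 : ∀ h, η h = 1 → exO O (act h) zh = c h • zh := by
    intro h hh
    have h2 := hU (exO O (act h) yh - c h • yh) (by
      rw [map_sub, tm_exO, tm_smul, hc, hy.2 h hh, sub_self])
    rw [map_sub, map_smul] at h2
    have h3 : exO O (act gt) (exO O (act h) yh) = c h • exO O (act gt) yh +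
      (a : O) • (exO O (act h) yh - c h • yh) := by
      rw [← h2]; abel
    rw [hzh, map_sub, map_smul, hcomm, h3]
    simp only [smul_sub, smul_smul, mul_comm (a : O) (c h)]
    abel
  obtain ⟨y1, hy1⟩ := hexp k zh (fun ℓ hl ↦ by
      rw [hzh, map_sub, tm_exO, tm_smul, map_sub, map_smul, extHom_comp, hy.1 ℓ hl,
        hy.1 _ (hℓ ℓ hl gt), smul_zero, sub_self]) (fun g ↦ by
      obtain ⟨i, h, hh, hg, hχ⟩ := H.decomp g
      obtain ⟨y', hy'⟩ := H.powO j c hj hc _ zh _ e1 i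
      refine ⟨c h • y', ?_⟩
      have h5 : c g = c (gt ^ i) * c h := by
        apply hj
        rw [map_mul, hc, hc, hc, hχ, Units.val_mul, map_pow]
      rw [hg, exO_comp, e2 h hh, map_smul, h5, mul_comm, mul_smul, ← smul_sub, hy', smul_comm])
  -- conclusion
  have e3 : ((p : O) ^ C) • yh = e • zh - e • (exO O (act gt) yh - c gt • yh) := by
    rw [he, hzh, ← smul_sub]
    rw [mul_comm, mul_smul]
    congr 1
    rw [sub_smul]
    abel
  refine ⟨e • y1 - e • (p ^ B • vh), ?_⟩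
  have e4 : tm j A (e • (exO O (act gt) yh - c gt • yh)) = tm j A (e • (p ^ k • vh)) := by
    rw [tm_smul, tm_smul, map_sub, tm_exO, tm_smul, hc, hT, htm]
  have e5 : p ^ (B + C) • tm j A yh = tm j A (p ^ B • (((p : O) ^ C) • yh)) := by
    rw [htm, tm_smul, map_pow, map_natCast, pow_add, mul_smul]
    congr 1
    rw [← Nat.cast_pow, Nat.cast_smul_eq_nsmul]
  rw [e5, e3, smul_sub, map_sub, htm, htm, e4, ← htm, ← htm, ← htm, smul_comm (p ^ B) e zh, hy1,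
    smul_sub, smul_comm (p ^ k) e y1, map_sub, smul_comm (p ^ B) e (p ^ k • vh),
    smul_comm (p ^ B) (p ^ k) vh, smul_comm (p ^ k) e (p ^ B • vh)]

end

end Pool.Agent.Helper17.TH
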