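import Pool.Agent.Helper17.TH.INS2

/-!
# Project TH (MP_fc6b1e_nt), part II: the conditions of `abs_main`, second part
-/

set_option autoImplicit false

namespace Pool.Agent.Helper17.TH

open Module TensorProduct Polynomial
open Pool.Agent.Helper51.SigLeo

section

variable {p : ℕ} [Fact p.Prime] {A : Type} [AddCommGroup A] [Module.Finite ℤ A] {G : Type}
  [Group G] {act : G → A →+ A} {χ η : G →* ℂ_[p]ˣ} {gt : G} {ℓs : Set (A →+ ℂ_[p])}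
  {O : Type} [CommRing O] [Algebra ℤ_[p] O] (j : O →+* ℂ_[p])

/-- An element of `W` divisible by `p` modulo `T` satisfies the congruence for all `g ∈ G`. -/
theorem Acts.powV (H : Acts act χ η gt) {ℓs : Set (A →+ ℂ_[p])}
    (u : ℂ_[p] ⊗[ℤ] A) (hu : u ∈ Wsub act χ η ℓs) (L : AddSubgroup (ℂ_[p] ⊗[ℤ] A))
    (hL : ∀ g, ∀ v ∈ L, extEnd (act g) v ∈ L) (hL' : ∀ g, ∀ v ∈ L, ((χ g : ℂ_[p]ˣ) : ℂ_[p]) • v ∈ L)
    (h : ∃ w ∈ L, extEnd (act gt) u - ((χ gt : ℂ_[p]ˣ) : ℂ_[p]) • u = p • w) (g : G) :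
    ∃ w ∈ L, extEnd (act g) u - ((χ g : ℂ_[p]ˣ) : ℂ_[p]) • u = p • w := by
  have hone : act 1 = AddMonoidHom.id A := H.fix 1 (map_one _) (map_one _)
  obtain ⟨w, hw, hw'⟩ := h
  have hpow : ∀ i : ℕ, ∃ w ∈ L, extEnd (act (gt ^ i)) u -
      ((χ (gt ^ i) : ℂ_[p]ˣ) : ℂ_[p]) • u = p • w := by
    intro i
    induction i with
    | zero =>
      refine ⟨0, zero_mem _, ?_⟩
      rw [pow_zero, hone, extEnd_id, map_one, Units.val_one, one_smul, sub_self, smul_zero]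
    | succ i ih =>
      obtain ⟨w', hw1, hw2⟩ := ih
      refine ⟨extEnd (act gt) w' + ((χ (gt ^ i) : ℂ_[p]ˣ) : ℂ_[p]) • w,
        add_mem (hL _ _ hw1) (hL' _ _ hw), ?_⟩
      have e1 : extEnd (act (gt ^ i)) u = ((χ (gt ^ i) : ℂ_[p]ˣ) : ℂ_[p]) • u + p • w' := by
        rw [← hw2]; abel
      have e2 : extEnd (act gt) u = ((χ gt : ℂ_[p]ˣ) : ℂ_[p]) • u + p • w := by
        rw [← hw']; abel
      rw [pow_succ', H.mul, extEnd_comp, e1, map_add, map_smul, e2, map_mul, Units.val_mul,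
        map_nsmul, smul_add, smul_smul, mul_comm ((χ gt : ℂ_[p]ˣ) : ℂ_[p]), smul_add,
        smul_comm (((χ (gt ^ i) : ℂ_[p]ˣ) : ℂ_[p])) p w]
      abel
  obtain ⟨i, h, hh, hg, hχ⟩ := H.decomp g
  obtain ⟨w', hw1, hw2⟩ := hpow i
  refine ⟨((χ h : ℂ_[p]ˣ) : ℂ_[p]) • w', hL' _ _ hw1, ?_⟩
  rw [hg, extEnd_comp, hu.2 h hh, map_smul, hχ, Units.val_mul, mul_comm, mul_smul, ← smul_sub,
    ← map_pow, hw2, smul_comm]

/-- the bound for the number of generators -/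
theorem ins_a (H : Acts act χ η gt)
    (h1 : S_TEN1) (h2 : S_TEN2) (h3 : S_CLS) (hj : Function.Injective j) (c : G → O)
    (hc : ∀ g, j (c g) = ((χ g : ℂ_[p]ˣ) : ℂ_[p])) (CG : ℕ) {ι : Type} [Fintype ι]
    (b : Basis ι ℤ_[p] O)
    (hcyc : ∃ ζ : A, ∀ (x : A) (n : ℕ), p ^ n • x = 0 → ∃ k : ℕ, x = k • ζ) (g₀ : G)
    (hg₀ : χ g₀ = 1)
    (hgen : ∀ (s : Finset A), (∀ u ∈ s, ∃ w, act g₀ u - u = p • w) →
      (∀ u ∈ s, ∀ v ∈ s, (∃ w, u - v = p • w) → u = v) → s.card ≤ CG)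
    (s : Finset (ℂ_[p] ⊗[ℤ] A))
    (hs1 : ∀ u ∈ s, (∃ z, u = tm j A z) ∧ u ∈ Wsub act χ η ℓs ∧
      ∃ w, (∃ z, w = tm j A z) ∧ w ∈ Wsub act χ η ℓs ∧
        extEnd (act gt) u - ((χ gt : ℂ_[p]ˣ) : ℂ_[p]) • u = p • w)
    (hs2 : ∀ u ∈ s, ∀ v ∈ s, (∃ w, (∃ z, w = tm j A z) ∧ w ∈ Wsub act χ η ℓs ∧
      u - v = p • w) → u = v) : s.card ≤ (p * CG) ^ Fintype.card ι := by
  classical
  obtain ⟨ζ, hζ⟩ := hcyc
  obtain ⟨t1, t2⟩ := h2 p O ι b A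
  have hp0 : (p : ℂ_[p]) ≠ 0 := by exact_mod_cast (Fact.out : p.Prime).ne_zero
  have htm : ∀ (n : ℕ) (z : O ⊗[ℤ] A), tm j A (n • z) = n • tm j A z := fun n z ↦ map_nsmul _ _ _
  -- the representatives
  have hrep : ∀ u : ℂ_[p] ⊗[ℤ] A, ∃ (e : ι → A), u ∈ s → ∃ y : O ⊗[ℤ] A,
      u = tm j A (∑ i, b i ⊗ₜ e i + p • y) := by
    intro u
    by_cases hu : u ∈ s
    · obtain ⟨z, hz⟩ := (hs1 u hu).1
      obtain ⟨e, y, hy⟩ := t1 z
      exact ⟨e, fun _ ↦ ⟨y, by rw [hz, hy]⟩⟩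
    · exact ⟨0, fun h ↦ absurd h hu⟩
  choose e he using hrep
  -- two elements with congruent coordinates are equal
  have hinj : ∀ u ∈ s, ∀ v ∈ s, (∀ i, ∃ a, e u i - e v i = p • a) → u = v := by
    intro u hu v hv huv
    obtain ⟨y, hy⟩ := he u hu
    obtain ⟨y', hy'⟩ := he v hv
    choose a ha using huv
    have e1 : (∑ i, b i ⊗ₜ[ℤ] e u i) - (∑ i, b i ⊗ₜ[ℤ] e v i) = p • ∑ i, b i ⊗ₜ[ℤ] a i := by
      rw [← Finset.sum_sub_distrib, Finset.smul_sum]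
      exact Finset.sum_congr rfl fun i _ ↦ by
        rw [← TensorProduct.tmul_sub, ha i, ← TensorProduct.tmul_smul]
    have e2 : u - v = p • tm j A ((∑ i, b i ⊗ₜ[ℤ] a i) + y - y') := by
      conv_lhs => rw [hy, hy']
      rw [← map_sub, ← htm, smul_sub, smul_add, ← e1]
      congr 1
      abel
    refine hs2 u hu v hv ⟨_, ⟨_, rfl⟩, ?_, e2⟩
    have e3 : tm j A ((∑ i, b i ⊗ₜ[ℤ] a i) + y - y') = (p : ℂ_[p])⁻¹ • (u - v) := by
      rw [e2, ← Nat.cast_smul_eq_nsmul ℂ_[p], smul_smul, inv_mul_cancel₀ hp0, one_smul]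
    rw [e3]
    exact Submodule.smul_mem _ _ (sub_mem (hs1 u hu).2.1 (hs1 v hv).2.1)
  have hcard : (s.image e).card = s.card := by
    apply Finset.card_image_of_injOn
    intro u hu v hv huv
    refine hinj u hu v hv fun i ↦ ⟨0, ?_⟩
    rw [smul_zero, sub_eq_zero]
    exact congrFun huv i
  rw [← hcard]
  -- torsion
  have htor : ∀ z : O ⊗[ℤ] A, tm j A z = 0 → ∃ (n : ι → ℕ) (y : O ⊗[ℤ] A),
      z = ∑ i, b i ⊗ₜ[ℤ] (n i • ζ) + p • y := by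
    intro z hz
    have hz' : ∃ o : O, z = o ⊗ₜ[ℤ] ζ := by
      refine AddSubgroup.closure_induction (p := fun z _ ↦ ∃ o : O, z = o ⊗ₜ[ℤ] ζ) ?_ ?_ ?_ ?_
        (h1 p O j hj A z hz)
      · rintro x ⟨o, x, n, hx, rfl⟩
        obtain ⟨k, rfl⟩ := hζ x n hx
        exact ⟨k • o, by rw [TensorProduct.tmul_smul, TensorProduct.smul_tmul']⟩
      · exact ⟨0, by rw [TensorProduct.zero_tmul]⟩
      · rintro _ _ _ _ ⟨o, rfl⟩ ⟨o', rfl⟩
        exact ⟨o + o', by rw [TensorProduct.add_tmul]⟩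
      · rintro _ _ ⟨o, rfl⟩
        exact ⟨-o, by rw [TensorProduct.neg_tmul]⟩
    obtain ⟨o, rfl⟩ := hz'
    -- `o = ∑ r_i b_i`
    have happ : ∀ r : ℤ_[p], ∃ (n : ℕ) (s : ℤ_[p]), r = n + p * s := by
      intro r
      have := PadicInt.appr_spec 1 r
      rw [pow_one, Ideal.mem_span_singleton] at this
      obtain ⟨s, hs⟩ := this
      exact ⟨_, s, by rw [← hs]; ring⟩
    choose n r hnr using happ
    refine ⟨fun i ↦ n (b.repr o i), ∑ i, (r (b.repr o i) • b i) ⊗ₜ[ℤ] ζ, ?_⟩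
    conv_lhs => rw [← b.sum_repr o]
    rw [TensorProduct.sum_tmul, Finset.smul_sum, ← Finset.sum_add_distrib]
    refine Finset.sum_congr rfl fun i _ ↦ ?_
    conv_lhs => rw [hnr (b.repr o i)]
    rw [add_smul, TensorProduct.add_tmul, mul_smul, Nat.cast_smul_eq_nsmul,
      Nat.cast_smul_eq_nsmul, TensorProduct.tmul_smul, TensorProduct.smul_tmul',
      TensorProduct.smul_tmul']
  -- conditions
  let L : AddSubgroup (ℂ_[p] ⊗[ℤ] A) := (tm j A).toAddMonoidHom.range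
  have hLm : ∀ v, v ∈ L ↔ ∃ z, tm j A z = v := fun v ↦ AddMonoidHom.mem_range
  have hL1 : ∀ g, ∀ v ∈ L, extEnd (act g) v ∈ L := by
    intro g v hv
    obtain ⟨z, rfl⟩ := (hLm v).1 hv
    exact (hLm _).2 ⟨exO O (act g) z, tm_exO _ _ _⟩
  have hL2 : ∀ g, ∀ v ∈ L, ((χ g : ℂ_[p]ˣ) : ℂ_[p]) • v ∈ L := by
    intro g v hv
    obtain ⟨z, rfl⟩ := (hLm v).1 hv
    exact (hLm _).2 ⟨c g • z, by rw [tm_smul, hc]⟩
  let φ : A →+ A := act g₀ - AddMonoidHom.id A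
  have hφ : ∀ x, φ x = act g₀ x - x := fun x ↦ rfl
  refine h3 p A φ ζ CG hgen ι (s.image e) ?_ ?_
  · intro e' he' i
    obtain ⟨u, hu, rfl⟩ := Finset.mem_image.1 he'
    obtain ⟨-, huW, w, hwz, hwW, hw⟩ := hs1 u hu
    obtain ⟨y, hy⟩ := he u hu
    obtain ⟨w', hw1, hw2⟩ := H.powV u huW L hL1 hL2 ⟨w, by
      obtain ⟨z, hz⟩ := hwz
      exact (hLm w).2 ⟨z, hz.symm⟩, hw⟩ g₀
    rw [hg₀, Units.val_one, one_smul] at hw2
    obtain ⟨z', hz'⟩ := (hLm w').1 hw1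
    have e4 : tm j A (exO O (act g₀) (∑ i, b i ⊗ₜ[ℤ] e u i + p • y) -
        (∑ i, b i ⊗ₜ[ℤ] e u i + p • y) - p • z') = 0 := by
      rw [map_sub, map_sub, tm_exO, ← hy, htm, hz', hw2, sub_self]
    obtain ⟨n, y2, hn⟩ := htor _ e4
    have e5 : ∑ i, b i ⊗ₜ[ℤ] (φ (e u i) - n i • ζ) =
        p • (z' + y2 + y - exO O (act g₀) y) := by
      have e6 : ∑ i, b i ⊗ₜ[ℤ] (φ (e u i) - n i • ζ) =
          exO O (act g₀) (∑ i, b i ⊗ₜ[ℤ] e u i) - ∑ i, b i ⊗ₜ[ℤ] e u i -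
            ∑ i, b i ⊗ₜ[ℤ] (n i • ζ) := by
        rw [map_sum, ← Finset.sum_sub_distrib, ← Finset.sum_sub_distrib]
        exact Finset.sum_congr rfl fun i _ ↦ by
          rw [exO_tmul, hφ, TensorProduct.tmul_sub, TensorProduct.tmul_sub]
      have e7 : ∑ i, b i ⊗ₜ[ℤ] (n i • ζ) = exO O (act g₀) (∑ i, b i ⊗ₜ[ℤ] e u i + p • y) -
        (∑ i, b i ⊗ₜ[ℤ] e u i + p • y) - p • z' - p • y2 := by
        rw [hn]; abel
      rw [e6, e7, map_add, map_nsmul]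
      simp only [smul_add, smul_sub]
      abel
    obtain ⟨a, ha⟩ := t2 _ _ e5 i
    exact ⟨n i, a, by rw [← ha]; abel⟩
  · intro e1 he1 e2 he2 h12
    obtain ⟨u, hu, rfl⟩ := Finset.mem_image.1 he1
    obtain ⟨v, hv, rfl⟩ := Finset.mem_image.1 he2
    rw [hinj u hu v hv h12]

end

end Pool.Agent.Helper17.TH
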