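import Pool.Agent.Helper17.TH.INS4
import Pool.Agent.Helper17.TH.EXT
import Pool.Agent.Helper17.TH.RNG

/-!
# Project TH (MP_fc6b1e_nt), part II: the statement at the levels `m`
-/

set_option autoImplicit false

namespace Pool.Agent.Helper17.TH

open NumberField Module IsDedekindDomain TensorProduct Polynomial
open Pool.Agent.Helper51.SigLeo Pool.Agent.Helper51.RP Pool.Agent.Helper42.RD
open Pool.Agent.Helper38.FD (Chr CutsOut LeopoldtFor)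

/-- the torsion is cyclic -/
theorem tors_cyc (p : ℕ) [Fact p.Prime] (F : Type) [Field F] [NumberField F] :
    ∃ ζ : Additive (𝓞 F)ˣ, ∀ (x : Additive (𝓞 F)ˣ) (n : ℕ), p ^ n • x = 0 → ∃ k : ℕ, x = k • ζ := by
  obtain ⟨ζ, hζ⟩ := IsCyclic.exists_generator (α := Units.torsion F)
  refine ⟨Additive.ofMul (ζ : (𝓞 F)ˣ), fun x n hx ↦ ?_⟩
  have h1 : x.toMul ∈ Units.torsion F := by
    rw [Units.torsion, CommGroup.mem_torsion, isOfFinOrder_iff_pow_eq_one]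
    exact ⟨p ^ n, pow_pos (Fact.out : p.Prime).pos _, congrArg Additive.toMul hx⟩
  have hfin : Finite (Units.torsion F) := inferInstance
  obtain ⟨k, hk⟩ := (mem_powers_iff_mem_zpowers (x := ζ)).2 (hζ ⟨_, h1⟩)
  refine ⟨k, ?_⟩
  have h2 := congrArg Subtype.val hk
  apply Additive.toMul.injective
  rw [toMul_nsmul]
  exact h2.symm

theorem tw_main (hD : S_DET) (hC : S_COK) (h1 : S_TEN1) (h2 : S_TEN2) (h3 : S_CLS) (h4 : S_SPN)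
    (hTor : S_TOR) (hInf : S_INF) (hGen : S_GEN) (hExp : S_EXP)
    (p : ℕ) [Fact p.Prime] (K : Type) [Field K] [NumberField K]
    (ιinf : AlgebraicClosure K →+* ℂ) (ιp : AlgebraicClosure K →+* ℂ_[p]) (Lg : IwasawaLog p ℂ_[p])
    (S : Set (K →+* ℂ)) (hcl : PlaceClosed (TSet ιinf ιp S))
    (χ : Chr K (AlgebraicClosure K) ℂ_[p]) (η : ℕ → Chr K (AlgebraicClosure K) ℂ_[p])
    (F : ℕ → IntermediateField K (AlgebraicClosure K)) [∀ m, NumberField (F m)]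
    [∀ m, IsGalois K (F m)] (g₀ : AlgebraicClosure K ≃ₐ[K] AlgebraicClosure K)
    (hT : Tw χ η F g₀) (hL : LeopoldtFor ιinf ιp Lg S χ) (d : ℕ) (hd : 0 < d) (hχ : χ ^ d = 1) :
    ∃ (gt : AlgebraicClosure K ≃ₐ[K] AlgebraicClosure K) (N : ℕ), η 1 gt ≠ 1 ∧
      ∀ m, ∃ D : ℤ_[p][X], D.eval 0 = (p : ℤ_[p]) ^ N ∧
        ∀ θ : Chr K (AlgebraicClosure K) ℂ_[p], (∀ g, η m g = 1 → θ g = 1) →
          ¬ LeopoldtFor ιinf ιp Lg S (χ * θ) →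
          D.eval₂ (zc p) (((χ gt : ℂ_[p]ˣ) : ℂ_[p]) * (((θ gt : ℂ_[p]ˣ) : ℂ_[p]) - 1)) = 0 := by
  classical
  obtain ⟨O, _, _, _, _, _, j, hj, hjp, c, hc⟩ := exists_ring χ d hd hχ
  obtain ⟨gt, C, hgt, htor⟩ := hTor p K χ (η 1) d hd hχ hT.one F O j hj hjp c hc
  obtain ⟨CG, hCG⟩ := hGen p K χ η F g₀ hT
  obtain ⟨B, hB⟩ := hExp p K ιinf ιp Lg S hcl χ η F g₀ hT hL O j hj hjp c hc
  refine ⟨gt, (B + C) * (p * CG) ^ Fintype.card (Module.Free.ChooseBasisIndex ℤ_[p] O), hgt,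
    fun m ↦ ?_⟩
  set ℓs : Set (Additive (𝓞 (F m))ˣ →+ ℂ_[p]) :=
    {ℓ | ∃ τ ∈ (above (TSet ιinf ιp S) : Set (F m →+* ℂ_[p])), ℓ = logUnits Lg τ} with hℓs
  have hH : Acts (p := p) (ug (F m)) χ (η m) gt := by
    refine ⟨ug_mul (F m), fun g hg1 hg2 ↦ ug_fix (F m) g ((hT.cut m g).2 ⟨hg1, hg2⟩), fun g ↦ ?_⟩
    refine tow_gen hT.succ gt g 0 hgt ?_ ?_ m
    · rw [hT.zero]; rfl
    · rw [hT.zero]; rfl
  have hℓ : ∀ ℓ ∈ ℓs, ∀ g, ℓ.comp (ug (F m) g) ∈ ℓs := by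
    rintro ℓ ⟨τ, hτ, rfl⟩ g
    exact ⟨_, above_comp (F m) (AlgEquiv.restrictNormalHom (F m) g) hτ, rfl⟩
  have hlin : ∀ v : ℂ_[p] ⊗[ℤ] Additive (𝓞 (F m))ˣ, (∀ ℓ ∈ ℓs, extHom ℓ v = 0) ↔
      ∀ τ ∈ (above (TSet ιinf ιp S) : Set (F m →+* ℂ_[p])), extHom (logUnits Lg τ) v = 0 := by
    intro v
    exact ⟨fun h τ hτ ↦ h _ ⟨τ, hτ, rfl⟩, fun h ℓ ⟨τ, hτ, hℓτ⟩ ↦ by rw [hℓτ]; exact h τ hτ⟩
  have hne : Nonempty (AlgebraicClosure ℚ →+* ℂ_[p]) :=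
    Pool.Agent.Helper30.PW.nonempty_hom ℚ ℂ_[p]
  obtain ⟨n, f, hf1, hf2⟩ := Pool.Agent.Helper94.RP.s_rat p ℂ_[p] hne Lg (F m)
    (above (TSet ιinf ιp S)) (closed_above (F m) hcl)
  obtain ⟨D, hD0, hDr⟩ := ins_main (act := ug (F m)) (χ := χ) (η := η m) (gt := gt) (ℓs := ℓs) j
    hD hC h1 h2 h3 h4 hH hℓ hj hjp c hc B C CG (Module.Free.chooseBasis ℤ_[p] O) (tors_cyc p (F m))
    g₀ hT.g₀χ (hCG m) (htor m) (fun k z hz hz2 ↦ hB m k z ((hlin _).1 hz) hz2) (fun v hv1 hv2 ↦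
      (hInf p K ιinf ιp Lg S (F m) χ (fun g hg ↦ ((hT.cut m g).1 hg).1)).1 hL v hv1
        ((hlin v).1 hv2)) ⟨n, f, fun z hz ↦ hf1 z ((hlin z).1 hz), fun ℓ ⟨τ, hτ, hℓτ⟩ ↦ by
          rw [hℓτ]; exact hf2 τ hτ⟩
  refine ⟨D, hD0, fun θ hθ hnot ↦ ?_⟩
  rw [hInf p K ιinf ιp Lg S (F m) (χ * θ) (fun g hg ↦ by
    have h5 := (hT.cut m g).1 hg
    rw [MonoidHom.mul_apply, h5.1, hθ g h5.2, mul_one])] at hnot
  push Not at hnot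
  obtain ⟨v, hv1, hv2, hv0⟩ := hnot
  refine hDr _ v ⟨(hlin v).2 hv2, fun h hh ↦ ?_⟩ hv0 ?_
  · rw [hv1, MonoidHom.mul_apply, hθ h hh, mul_one]
  · rw [hv1, MonoidHom.mul_apply, Units.val_mul, ← sub_smul, mul_sub, mul_one]

end Pool.Agent.Helper17.TH
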