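import Pool.Agent.Helper17.TH.GoalsII
import Pool.Agent.Helper38.TH.DefsD
import Pool.Agent.Helper30.PW.WDEC

/-!
# Project TH (MP_fc6b1e_nt), part II: the tower of fields of a tower of characters
-/

set_option autoImplicit false

namespace Pool.Agent.Helper17.TH

open NumberField Module IsDedekindDomain TensorProduct
open Pool.Agent.Helper51.SigLeo Pool.Agent.Helper51.RP Pool.Agent.Helper42.RD
open Pool.Agent.Helper38.FD (Chr CutsOut LeopoldtFor)
open Pool.Agent.Helper38.FW (InDec)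
open Pool.Agent.Helper38.TH (IsTower Hat Unr RamD)

section chars

variable {p : ℕ} [Fact p.Prime] {G : Type} [Group G] {η : ℕ → G →* ℂ_[p]ˣ}

theorem tow_pow (hs : ∀ n, η (n + 1) ^ p = η n) (n k : ℕ) (g : G) :
    η (n + k) g ^ p ^ k = η n g := by
  induction k with
  | zero => rw [pow_zero, pow_one, add_zero]
  | succ k ih =>
    have h1 : η (n + k + 1) g ^ p = η (n + k) g := DFunLike.congr_fun (hs (n + k)) g
    rw [pow_succ', pow_mul, ← add_assoc, h1, ih]

theorem tow_one (h0 : η 0 = 1) (hs : ∀ n, η (n + 1) ^ p = η n) (n : ℕ) (g : G) :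
    η n g ^ p ^ n = 1 := by
  have := tow_pow hs 0 n g
  rw [zero_add, h0] at this
  exact this

/-- If `l` is the last level at which `g₀` is trivial and `g` is trivial at the level `l`, then at all the levels the value at `g` is a power of
the value at `g₀`. -/
theorem tow_gen (hs : ∀ n, η (n + 1) ^ p = η n) (g₀ g : G) (l : ℕ) (h1 : η (l + 1) g₀ ≠ 1)
    (h2 : η l g₀ = 1) (h3 : η l g = 1) (m : ℕ) : ∃ i : ℕ, η m g = η m g₀ ^ i := by
  rcases le_or_gt m l with hm | hm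
  · obtain ⟨k, rfl⟩ := Nat.exists_eq_add_of_le hm
    refine ⟨0, ?_⟩
    rw [pow_zero, ← tow_pow hs m k g, h3, one_pow]
  · obtain ⟨k, rfl⟩ := Nat.exists_eq_add_of_le (Nat.succ_le_of_lt hm)
    have e1 : η (l.succ + k) g₀ ^ p ^ k ≠ 1 := by
      rw [tow_pow hs (l + 1) k g₀]
      exact h1
    have e0 : ∀ g, η (l.succ + k) g ^ p ^ (k + 1) = η l g := by
      intro g
      have := tow_pow hs l (k + 1) g
      have e : l + (k + 1) = l.succ + k := by omega
      rwa [e] at this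
    have e2 : η (l.succ + k) g₀ ^ p ^ (k + 1) = 1 := by rw [e0, h2]
    have hord : orderOf (η (l.succ + k) g₀) = p ^ (k + 1) := orderOf_eq_prime_pow e1 e2
    have hprim : IsPrimitiveRoot (η (l.succ + k) g₀) (p ^ (k + 1)) := by
      rw [← hord]
      exact IsPrimitiveRoot.orderOf _
    have hprim' : IsPrimitiveRoot ((η (l.succ + k) g₀ : ℂ_[p]ˣ) : ℂ_[p]) (p ^ (k + 1)) :=
      IsPrimitiveRoot.coe_units_iff.2 hprim
    have hne : NeZero (p ^ (k + 1)) := ⟨pow_ne_zero _ (Fact.out : p.Prime).ne_zero⟩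
    obtain ⟨i, -, hi⟩ := hprim'.eq_pow_of_pow_eq_one
      (ξ := ((η (l.succ + k) g : ℂ_[p]ˣ) : ℂ_[p])) (by
        rw [← Units.val_pow_eq_pow_val, e0, h3, Units.val_one])
    refine ⟨i, Units.ext ?_⟩
    rw [Units.val_pow_eq_pow_val, hi]

/-- primitive roots -/
theorem tow_prim (h0 : η 0 = 1) (hs : ∀ n, η (n + 1) ^ p = η n) (g : G) (h1 : η 1 g ≠ 1) (n : ℕ)
    (hn : 1 ≤ n) : IsPrimitiveRoot ((η n g : ℂ_[p]ˣ) : ℂ_[p]) (p ^ n) := by
  obtain ⟨k, rfl⟩ := Nat.exists_eq_add_of_le hn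
  have e1 : η (1 + k) g ^ p ^ k ≠ 1 := by
    rw [tow_pow hs 1 k g]
    exact h1
  have e2 : η (1 + k) g ^ p ^ (k + 1) = 1 := by
    have := tow_one h0 hs (1 + k) g
    rwa [add_comm 1 k] at this ⊢
  have hord : orderOf (η (1 + k) g) = p ^ (k + 1) := orderOf_eq_prime_pow e1 e2
  have hprim : IsPrimitiveRoot (η (1 + k) g) (p ^ (1 + k)) := by
    rw [add_comm 1 k, ← hord, add_comm k 1]
    exact IsPrimitiveRoot.orderOf _
  exact IsPrimitiveRoot.coe_units_iff.2 hprim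

/-- the generator of the images of a subgroup -/
theorem tow_exists (h0 : η 0 = 1) (hs : ∀ n, η (n + 1) ^ p = η n) (P : Subgroup G) :
    ∃ g₀ ∈ P, ∀ m, ∀ g ∈ P, ∃ i : ℕ, η m g = η m g₀ ^ i := by
  classical
  by_cases h : ∃ m, ∃ g ∈ P, η m g ≠ 1
  · obtain ⟨g₀, hg₀, hne⟩ := Nat.find_spec h
    obtain ⟨l, hl⟩ : ∃ l, Nat.find h = l + 1 := by
      refine Nat.exists_eq_succ_of_ne_zero fun hz ↦ ?_
      rw [hz, h0] at hne
      exact hne rfl
    have hmin : ∀ g ∈ P, η l g = 1 := by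
      intro g hg
      by_contra hcon
      exact Nat.find_min h (m := l) (by omega) ⟨g, hg, hcon⟩
    rw [hl] at hne
    exact ⟨g₀, hg₀, fun m g hg ↦ tow_gen hs g₀ g l hne (hmin g₀ hg₀) (hmin g hg) m⟩
  · push Not at h
    exact ⟨1, one_mem _, fun m g hg ↦ ⟨0, by rw [h m g hg, pow_zero]⟩⟩

end chars

end Pool.Agent.Helper17.TH
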